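import Mathlib

/-!
Definitions for the Tukey spectrum of a directed set and for scales in products of regular
cardinals.
-/

open Cardinal Order Filter

universe u v

namespace Pool.Agent.Lib.MP_c014b8_lc

/-- Tukey reducibility `P ≤_T Q`: there is a map from `Q` to `P` which sends every cofinal subset
of `Q` onto a cofinal subset of `P`. -/
def TukeyLE (P : Type u) (Q : Type u) [LE P] [LE Q] : Prop :=
  ∃ f : Q → P, ∀ s : Set Q, IsCofinal s → IsCofinal (f '' s)

/-- The Tukey spectrum `Sp_T(P)`: all regular cardinals `κ` with `(κ, <) ≤_T P`. Here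
`κ.ord.ToType` is the well order of type `κ`. -/
def tukeySpec (P : Type u) [LE P] : Set Cardinal.{u} :=
  {κ | κ.IsRegular ∧ TukeyLE κ.ord.ToType P}

/-- The statement of Q1 at the cardinal `L`: every directed set `P` such that `cf(L)` is not in
`Sp_T(P)` and such that `Sp_T(P)` is unbounded in `L` has `L⁺` in `Sp_T(P)`. -/
def Q1At (L : Cardinal.{u}) : Prop :=
  ∀ (P : Type u) [PartialOrder P] [IsDirectedOrder P], L.ord.cof ∉ tukeySpec P →
    (∀ μ < L, ∃ κ ∈ tukeySpec P, μ < κ ∧ κ < L) → succ L ∈ tukeySpec P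

/-- The statement of Q1 at `L`, for directed sets which are `cf(L)⁺`-directed. -/
def DirQ1At (L : Cardinal.{u}) : Prop :=
  ∀ (P : Type u) [PartialOrder P] [IsDirectedOrder P],
    (∀ s : Set P, #s ≤ L.ord.cof → BddAbove s) →
    (∀ μ < L, ∃ κ ∈ tukeySpec P, μ < κ ∧ κ < L) → succ L ∈ tukeySpec P

/-- The product of the well orders `κ i` has a scale of length `L⁺` modulo bounded subsets of the
index set `I` (that is, a family indexed by `L⁺` which is strictly increasing and
cofinal modulo bounded sets). For `I = ℕ` the bounded sets are the finite sets. -/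
def HasScale {I : Type v} [Preorder I] (κ : I → Cardinal.{u}) (L : Cardinal.{u}) : Prop :=
  ∃ g : (succ L).ord.ToType → ∀ i, (κ i).ord.ToType,
    (∀ ξ η, ξ < η → ∀ᶠ i in atTop, g ξ i < g η i) ∧
      ∀ f : ∀ i, (κ i).ord.ToType, ∃ ξ, ∀ᶠ i in atTop, f i < g ξ i

/-- Some family of at most `L⁺` elements of the product is unbounded modulo bounded subsets
of `I`. -/
def HasUnbounded {I : Type v} [Preorder I] (κ : I → Cardinal.{u}) (L : Cardinal.{u}) : Prop :=
  ∃ F : (succ L).ord.ToType → ∀ i, (κ i).ord.ToType,
    ¬ ∃ f : ∀ i, (κ i).ord.ToType, ∀ ξ, ∀ᶠ i in atTop, F ξ i ≤ f i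

/-- Every strictly increasing `ω`-sequence of regular cardinals with supremum `L` has a scale of
length `L⁺` modulo finite sets. -/
def OmegaScalesAt (L : Cardinal.{u}) : Prop :=
  ∀ κ : ℕ → Cardinal.{u}, StrictMono κ → (∀ n, (κ n).IsRegular) → ⨆ n, κ n = L → HasScale κ L

/-- Every strictly increasing `ω`-sequence of regular cardinals with supremum `L` has a family of
at most `L⁺` functions in its product which is unbounded modulo finite sets. -/
def OmegaUnboundedAt (L : Cardinal.{u}) : Prop :=
  ∀ κ : ℕ → Cardinal.{u}, StrictMono κ → (∀ n, (κ n).IsRegular) → ⨆ n, κ n = L →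
    HasUnbounded κ L

/-- Every strictly increasing sequence of regular cardinals of length `cf(L)` with supremum `L`
has a scale of length `L⁺` modulo bounded sets. -/
def ScalesAt (L : Cardinal.{u}) : Prop :=
  ∀ κ : L.ord.cof.ord.ToType → Cardinal.{u}, StrictMono κ → (∀ i, (κ i).IsRegular) →
    ⨆ i, κ i = L → HasScale κ L

/-- The cofinality of the product of the well orders `κ i` modulo the filter `D` (for an
ultrafilter `D` this is the cofinality of the ultraproduct). -/
noncomputable def prodCof {I : Type u} (κ : I → Cardinal.{u}) (D : Filter I) : Cardinal.{u} :=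
  sInf {c | ∃ S : Set (∀ i, (κ i).ord.ToType), #S = c ∧
    ∀ f : (∀ i, (κ i).ord.ToType), ∃ g ∈ S, ∀ᶠ i in D, f i ≤ g i}

/-- Shelah's pseudopower `pp(L)` of a singular cardinal `L`: the supremum of the cofinalities of
all ultraproducts of the `κ i` modulo `D`, where `κ` is a family of regular cardinals below `L`
indexed by `cf(L)` and `D` is an ultrafilter on `cf(L)` such that the limit of `κ` along `D`
is `L`. -/
noncomputable def pp (L : Cardinal.{u}) : Cardinal.{u} :=
  sSup {c | ∃ (κ : L.ord.cof.ord.ToType → Cardinal.{u}) (D : Ultrafilter L.ord.cof.ord.ToType),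
    (∀ i, (κ i).IsRegular) ∧ (∀ i, κ i < L) ∧ (∀ μ < L, ∀ᶠ i in (D : Filter _), μ < κ i) ∧
      c = prodCof κ (D : Filter _)}

end Pool.Agent.Lib.MP_c014b8_lc
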