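import Pool.Agent.Lib.MP_c014b8_lc.Unc
import Pool.Agent.Lib.MP_c014b8_lc.Defs

/-!
Scales at all singular cardinals from scales at singular cardinals of countable cofinality.
-/

open Cardinal Set Order Filter

universe u v

namespace Pool.Agent.Lib.MP_c014b8_lc

theorem singular_succ_lt {L : Cardinal.{u}} (hL : L.IsSingular) {μ : Cardinal.{u}} (h : μ < L) :
    succ μ < L := hL.isSuccLimit.succ_lt h

/-- A cofinal function from any type of size `cf(L)` into the cardinals below `L`. -/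
theorem exists_cofinal_fun {L : Cardinal.{u}} (hL : L.IsSingular) {M : Type u}
    (hM : #M = L.ord.cof) : ∃ a : M → Cardinal.{u}, (∀ i, a i < L) ∧ ∀ μ < L, ∃ i, μ < a i := by
  obtain ⟨ι, f, hf, hι⟩ := Ordinal.exists_lsub_cof L.ord
  obtain ⟨e⟩ := Cardinal.eq.1 (hM.trans hι.symm)
  refine ⟨fun i => (f (e i)).card, fun i => ?_, fun μ hμ => ?_⟩
  · rw [← lt_ord, ← hf]
    exact Ordinal.lt_lsub f (e i)
  · have h1 : (succ μ).ord < Ordinal.lsub f := by
      rw [hf]; exact ord_lt_ord.2 (singular_succ_lt hL hμ)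
    obtain ⟨i, hi⟩ := Ordinal.lt_lsub_iff.1 h1
    refine ⟨e.symm i, ?_⟩
    simp only [Equiv.apply_symm_apply]
    exact (lt_succ μ).trans_le (ord_le.1 hi)

theorem iSup_lt_of_cof {L : Cardinal.{u}} {S : Type u} (hS : #S < L.ord.cof)
    (κ : S → Cardinal.{u}) (hκ : ∀ i, κ i < L) : ⨆ i, κ i < L :=
  Cardinal.iSup_lt_of_lt_cof_ord hS hκ

theorem bdd_index {L : Cardinal.{u}} {I : Type u} [LinearOrder I] (κ : I → Cardinal.{u})
    (hmono : StrictMono κ) (hlt : ∀ i, κ i < L) (hsup : ∀ μ < L, ∃ i, μ < κ i)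
    (s : Set I) (hs : #s < L.ord.cof) : ∃ b, ∀ i ∈ s, i < b := by
  obtain ⟨b, hb⟩ := hsup _ (iSup_lt_of_cof hs (fun i : s => κ i) fun i => hlt i)
  refine ⟨b, fun i hi => hmono.lt_iff_lt.1 (lt_of_le_of_lt ?_ hb)⟩
  exact le_ciSup (f := fun i : s => κ i) Cardinal.bddAbove_of_small ⟨i, hi⟩

theorem extend_fun {M I : Type*} {K : I → Type*} [∀ i, Nonempty (K i)] (t : M → I)
    (ht : Function.Injective t) (F : ∀ k, K (t k)) : ∃ G : ∀ i, K i, ∀ k, G (t k) = F k := by
  classical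
  have : ∀ i, ∃ v : K i, ∀ k (h : t k = i), v = h ▸ F k := by
    intro i
    by_cases hi : ∃ k, t k = i
    · obtain ⟨k, rfl⟩ := hi
      refine ⟨F k, fun k' h => ?_⟩
      have := ht h
      subst this
      rfl
    · exact ⟨Classical.arbitrary _, fun k h => absurd ⟨k, h⟩ hi⟩
  choose G hG using this
  exact ⟨G, fun k => hG (t k) k rfl⟩

/-- If all sequences of length `cf(L)` have unbounded families, then all sequences (of any well
ordered length below `L`) have scales. -/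
theorem scale_of_unbounded {L : Cardinal.{u}} (hL : L.IsSingular)
    {M : Type u} [LinearOrder M] [WellFoundedLT M] (hM : #M = L.ord.cof)
    (hM' : ∀ k : M, #(Iio k) < #M)
    (hunb : ∀ κ : M → Cardinal.{u}, StrictMono κ → (∀ i, (κ i).IsRegular) → (∀ i, #M < κ i) →
      (∀ i, κ i < L) → (∀ μ < L, ∃ i, μ < κ i) →
      ∃ H : (succ L).ord.ToType → ∀ i, (κ i).ord.ToType, ∀ f : ∀ i, (κ i).ord.ToType,
        ∃ ξ, ∃ᶠ i in atTop, f i < H ξ i)
    {I : Type u} [LinearOrder I] [WellFoundedLT I] [Nonempty I] [NoMaxOrder I]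
    (κ : I → Cardinal.{u}) (hmono : StrictMono κ) (hreg : ∀ i, (κ i).IsRegular)
    (hlt : ∀ i, κ i < L) (hsup : ∀ μ < L, ∃ i, μ < κ i) (hI : #I < L) : HasScale κ L := by
  classical
  have : Infinite I := NoMaxOrder.infinite
  have hI0 : ℵ₀ ≤ #I := aleph0_le_mk I
  have hL0 : ℵ₀ ≤ L := hL.aleph0_le
  have hν : succ (succ (succ #I)) < L :=
    singular_succ_lt hL (singular_succ_lt hL (singular_succ_lt hL hI))
  have hML : #M < L := hM ▸ hL.cof_ord_lt
  obtain ⟨n₁, hn₁⟩ := hsup _ (max_lt hν hML)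
  have hn₁' : succ (succ (succ #I)) < κ n₁ := (le_max_left _ _).trans_lt hn₁
  have hn₁M : #M < κ n₁ := (le_max_right _ _).trans_lt hn₁
  have hIn₁ : #I < κ n₁ := ((le_succ _).trans ((le_succ _).trans (le_succ _))).trans_lt hn₁'
  have hLsum : L ≤ Cardinal.sum κ := by
    by_contra hcon
    rw [not_le] at hcon
    obtain ⟨i, hi'⟩ := hsup _ hcon
    exact absurd (Cardinal.le_sum κ i) (not_le.2 hi')
  let Θ : Type u := (succ L).ord.ToType
  have hΘreg : (succ L).IsRegular := isRegular_succ hL0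
  have hΘ : ∀ s : Set Θ, #s ≤ L → ∃ b, ∀ a ∈ s, a < b := fun s hs =>
    bdd_of_isRegular hΘreg s (hs.trans_lt (lt_succ L))
  have hΘ' : ∀ ξ : Θ, #(Iio ξ) ≤ L := fun ξ => le_of_lt_succ (mk_Iio_ord_lt ξ)
  have hB := bounded_of_mk_le κ κ hLsum (fun i => (hreg i).ne_zero) (by
    filter_upwards [eventually_ge_atTop n₁] with i hi
    refine ⟨hreg i, Cardinal.sum_lt_of_isRegular (hreg i) ?_ fun j => hmono j.2⟩
    exact (mk_set_le _).trans_lt (hIn₁.trans_le (hmono.monotone hi)))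
  have hKne : ∀ i, Nonempty (κ i).ord.ToType := by
    intro i
    rw [← mk_ne_zero_iff, mk_ord_toType]; exact (hreg i).ne_zero
  obtain ⟨g, hg1, hg2⟩ := exists_scale (Θ := Θ) (K := fun i => (κ i).ord.ToType) hL0 hν.le hΘ hΘ'
    hB n₁ (fun i hi s hs => bdd_of_isRegular (hreg i) s
      (hs.trans_lt (hn₁'.trans_le (hmono.monotone hi)))) (by
    intro c hc
    -- a strictly increasing cofinal map from `M` into `c`
    obtain ⟨a, ha1, ha2⟩ := exists_cofinal_fun hL hM
    have hu : ∀ k : M, ∃ i : I, a k < κ i := fun k => hsup _ (ha1 k)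
    choose u hu using hu
    have hstep : ∀ (k : M) (x : M → I), ∃ i, i ∈ c ∧ n₁ ≤ i ∧ u k ≤ i ∧ ∀ k' < k, x k' < i := by
      intro k x
      obtain ⟨b, hb⟩ := bdd_index κ hmono hlt hsup (x '' Iio k)
        (mk_image_le.trans_lt (hM ▸ hM' k))
      obtain ⟨i, hi, hic⟩ := (frequently_atTop.1 hc) (max b (max n₁ (u k)))
      exact ⟨i, hic, ((le_max_left _ _).trans (le_max_right _ _)).trans hi,
        ((le_max_right _ _).trans (le_max_right _ _)).trans hi, fun k' hk' =>
          (hb _ (mem_image_of_mem _ hk')).trans_le ((le_max_left _ _).trans hi)⟩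
    choose st hst1 hst2 hst3 hst4 using hstep
    obtain ⟨t, ht⟩ := exists_rec (W := M) (T := I) n₁ st
    have ht1 : ∀ k, t k ∈ c := fun k => by rw [ht k]; exact hst1 _ _
    have ht2 : ∀ k, n₁ ≤ t k := fun k => by rw [ht k]; exact hst2 _ _
    have ht3 : ∀ k, u k ≤ t k := fun k => by
      have := hst3 k (fun k' => if k' < k then t k' else n₁)
      rwa [← ht k] at this
    have ht4 : StrictMono t := by
      intro k' k hk
      have := hst4 k (fun k' => if k' < k then t k' else n₁) k' hk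
      rw [← ht k] at this
      simpa [hk] using this
    have hcofI : ∀ i : I, ∃ k, i < u k := by
      intro i
      obtain ⟨k, hk⟩ := ha2 _ (hlt i)
      exact ⟨k, hmono.lt_iff_lt.1 (hk.trans (hu k))⟩
    have hMne : Nonempty M := by
      obtain ⟨k, -⟩ := hcofI n₁
      exact ⟨k⟩
    obtain ⟨H₀, hH₀⟩ := hunb (fun k => κ (t k)) (hmono.comp ht4) (fun k => hreg _)
      (fun k => hn₁M.trans_le (hmono.monotone (ht2 k))) (fun k => hlt _) (fun μ hμ => by
        obtain ⟨i, hi⟩ := hsup μ hμ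
        obtain ⟨k, hk⟩ := hcofI i
        exact ⟨k, hi.trans_le (hmono.monotone (hk.le.trans (ht3 k)))⟩)
    choose H hH using fun ξ => extend_fun (K := fun i => (κ i).ord.ToType) t ht4.injective (H₀ ξ)
    refine ⟨H, fun f => ?_⟩
    obtain ⟨ξ, hξ⟩ := hH₀ fun k => f (t k)
    refine ⟨ξ, frequently_atTop.2 fun i => ?_⟩
    obtain ⟨k₀, hk₀⟩ := hcofI i
    obtain ⟨k, hk, hk'⟩ := (frequently_atTop.1 hξ) k₀
    refine ⟨t k, (hk₀.le.trans (ht3 k₀)).trans (ht4.monotone hk), ht1 k, ?_⟩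
    rw [hH]
    exact hk')
  exact ⟨g, hg1, hg2⟩

theorem hasScale_ulift {L : Cardinal.{u}} (κ : ULift.{u} ℕ → Cardinal.{u})
    (h : HasScale (fun n : ℕ => κ ⟨n⟩) L) : HasScale κ L := by
  obtain ⟨g, hg1, hg2⟩ := h
  refine ⟨fun ξ i => g ξ i.down, fun ξ η hξη => ?_, fun f => ?_⟩
  · obtain ⟨a, ha⟩ := eventually_atTop.1 (hg1 ξ η hξη)
    exact eventually_atTop.2 ⟨⟨a⟩, fun i hi => ha i.down hi⟩
  · obtain ⟨ξ, hξ⟩ := hg2 fun n => f ⟨n⟩
    obtain ⟨a, ha⟩ := eventually_atTop.1 hξ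
    exact ⟨ξ, eventually_atTop.2 ⟨⟨a⟩, fun i hi => ha i.down hi⟩⟩

theorem hasScale_of_ulift {L : Cardinal.{u}} (κ : ℕ → Cardinal.{u})
    (h : HasScale (fun n : ULift.{u} ℕ => κ n.down) L) : HasScale κ L := by
  obtain ⟨g, hg1, hg2⟩ := h
  refine ⟨fun ξ i => g ξ ⟨i⟩, fun ξ η hξη => ?_, fun f => ?_⟩
  · obtain ⟨a, ha⟩ := eventually_atTop.1 (hg1 ξ η hξη)
    exact eventually_atTop.2 ⟨a.down, fun i hi => ha ⟨i⟩ hi⟩
  · obtain ⟨ξ, hξ⟩ := hg2 fun n => f n.down
    obtain ⟨a, ha⟩ := eventually_atTop.1 hξ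
    exact ⟨ξ, eventually_atTop.2 ⟨a.down, fun i hi => ha ⟨i⟩ hi⟩⟩

theorem iSup_eq_of {I : Type v} [Nonempty I] [Small.{u} I] {L : Cardinal.{u}}
    (κ : I → Cardinal.{u})
    (hlt : ∀ i, κ i < L) (hsup : ∀ μ < L, ∃ i, μ < κ i) : ⨆ i, κ i = L := by
  apply le_antisymm
  · exact ciSup_le fun i => (hlt i).le
  · by_contra h
    rw [not_le] at h
    obtain ⟨i, hi⟩ := hsup _ h
    exact absurd (le_ciSup (f := κ) (Cardinal.bddAbove_of_small) i) (not_le.2 hi)

theorem of_iSup_eq {I : Type v} [Preorder I] [Nonempty I] [NoMaxOrder I] [Small.{u} I]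
    {L : Cardinal.{u}} (κ : I → Cardinal.{u}) (hmono : StrictMono κ) (h : ⨆ i, κ i = L) :
    (∀ i, κ i < L) ∧ ∀ μ < L, ∃ i, μ < κ i := by
  refine ⟨fun i => ?_, fun μ hμ => ?_⟩
  · obtain ⟨j, hj⟩ := exists_gt i
    exact (hmono hj).trans_le (h ▸ le_ciSup (f := κ) (Cardinal.bddAbove_of_small) j)
  · rw [← h] at hμ
    exact exists_lt_of_lt_ciSup hμ

/-- The base case: countable cofinality, from unbounded families. -/
theorem scale_of_omegaUnbounded {L : Cardinal.{u}} (hL : L.IsSingular) (hcof : L.ord.cof = ℵ₀)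
    (h : OmegaUnboundedAt L)
    {I : Type u} [LinearOrder I] [WellFoundedLT I] [Nonempty I] [NoMaxOrder I]
    (κ : I → Cardinal.{u}) (hmono : StrictMono κ) (hreg : ∀ i, (κ i).IsRegular)
    (hlt : ∀ i, κ i < L) (hsup : ∀ μ < L, ∃ i, μ < κ i) (hI : #I < L) : HasScale κ L := by
  refine scale_of_unbounded hL (M := ULift.{u} ℕ) (by simp [hcof]) (fun k => ?_) ?_ κ hmono hreg
    hlt hsup hI
  · have h1 : #(ULift.{u} ℕ) = ℵ₀ := by simp
    rw [h1, Cardinal.lt_aleph0_iff_set_finite]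
    have : Iio k ⊆ ULift.down ⁻¹' (Iio k.down) := fun x hx => hx
    exact (Set.Finite.preimage (ULift.down_injective.injOn) (Set.finite_Iio k.down)).subset this
  · intro κ' hmono' hreg' _ hlt' hsup'
    obtain ⟨F, hF⟩ := h (fun n => κ' ⟨n⟩) (fun a b hab => hmono' hab) (fun n => hreg' _)
      (iSup_eq_of _ (fun i => hlt' _) fun μ hμ => by
        obtain ⟨i, hi⟩ := hsup' μ hμ
        exact ⟨i.down, hi⟩)
    push Not at hF
    refine ⟨fun ξ i => F ξ i.down, fun f => ?_⟩
    obtain ⟨ξ, hξ⟩ := hF fun n => f ⟨n⟩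
    refine ⟨ξ, frequently_atTop.2 fun i => ?_⟩
    obtain ⟨j, hj, hj'⟩ := (frequently_atTop.1 hξ) i.down
    exact ⟨⟨j⟩, hj, hj'⟩

theorem omegaUnbounded_of_omegaScales {L : Cardinal.{u}} (h : OmegaScalesAt L) :
    OmegaUnboundedAt L := by
  intro κ h1 h2 h3
  obtain ⟨g, -, hg2⟩ := h κ h1 h2 h3
  refine ⟨g, ?_⟩
  rintro ⟨f, hf⟩
  obtain ⟨ξ, hξ⟩ := hg2 f
  obtain ⟨n, h4, h5⟩ := (hξ.and (hf ξ)).exists
  exact absurd h4 (not_lt.2 h5)

theorem omegaScales_of_omegaUnbounded {L : Cardinal.{u}} (hL : L.IsSingular)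
    (hcof : L.ord.cof = ℵ₀) (h : OmegaUnboundedAt L) : OmegaScalesAt L := by
  intro κ h1 h2 h3
  apply hasScale_of_ulift
  have hnm : NoMaxOrder (ULift.{u} ℕ) := ⟨fun a => ⟨⟨a.down + 1⟩, Nat.lt_succ_self a.down⟩⟩
  obtain ⟨h4, h5⟩ := of_iSup_eq κ h1 h3
  refine scale_of_omegaUnbounded hL hcof h (fun n : ULift.{u} ℕ => κ n.down)
    (fun a b hab => h1 hab) (fun i => h2 _) (fun i => h4 _) (fun μ hμ => ?_) ?_
  · obtain ⟨i, hi⟩ := h5 μ hμ
    exact ⟨⟨i⟩, hi⟩
  · have : #(ULift.{u} ℕ) = ℵ₀ := by simp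
    rw [this, ← hcof]
    exact hL.cof_ord_lt

/-- Scales at all singular cardinals from scales at those of countable cofinality. -/
theorem scale_all (hω : ∀ L : Cardinal.{u}, L.IsSingular → L.ord.cof = ℵ₀ → OmegaScalesAt L)
    (L : Cardinal.{u}) : L.IsSingular →
    ∀ (I : Type u) [LinearOrder I] [WellFoundedLT I] [Nonempty I] [NoMaxOrder I]
    (κ : I → Cardinal.{u}), StrictMono κ → (∀ i, (κ i).IsRegular) →
    (∀ i, κ i < L) → (∀ μ < L, ∃ i, μ < κ i) → #I < L → HasScale κ L := by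
  induction L using WellFoundedLT.induction with
  | ind L IH =>
    intro hL
    have hcofreg : L.ord.cof.IsRegular := isRegular_cof (Cardinal.isSuccLimit_ord hL.aleph0_le)
    rcases hcofreg.aleph0_le.eq_or_lt with hcof | hcof
    · intro I _ _ _ _ κ hmono hreg hlt hsup hI
      exact scale_of_omegaUnbounded hL hcof.symm
        (omegaUnbounded_of_omegaScales (hω L hL hcof.symm)) κ hmono hreg hlt hsup hI
    · intro I _ _ _ _ κ hmono hreg hlt hsup hI
      refine scale_of_unbounded hL (M := L.ord.cof.ord.ToType) (mk_ord_toType _) (fun k => ?_) ?_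
        κ hmono hreg hlt hsup hI
      · rw [mk_ord_toType]; exact mk_Iio_ord_lt k
      · intro κ' hmono' hreg' hM' hlt' hsup'
        let M : Type u := L.ord.cof.ord.ToType
        have hMcard : #M = L.ord.cof := mk_ord_toType _
        have hMb : ∀ s : Set M, #s < #M → ∃ b, ∀ a ∈ s, a < b := fun s hs =>
          bdd_of_isRegular hcofreg s (hs.trans_eq hMcard)
        have h0 : ℵ₀ < #M := hMcard ▸ hcof
        have hMi : ∀ i : M, #(Iic i) < #M := by
          intro i
          obtain ⟨b, hb⟩ := hMb {i} (by rw [mk_singleton]; exact one_lt_aleph0.trans h0)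
          have hsub : Iic i ⊆ Iio b := fun x hx => lt_of_le_of_lt hx (hb i rfl)
          rw [hMcard]
          exact (mk_le_mk_of_subset hsub).trans_lt (mk_Iio_ord_lt b)
        obtain ⟨H, hH⟩ := dominating_of_scales hMb hMi h0 κ' hreg' hmono' hM' hlt' hsup' (by
          intro i hi
          have hmem : ∀ j : Iio i, κ' j ≤ lam κ' i := fun j => le_lam κ' j.2
          obtain ⟨j₀, hj₀⟩ := not_isMin_iff.1 hi.1
          have hne : Nonempty (Iio i) := ⟨⟨j₀, hj₀⟩⟩
          have hnomax : NoMaxOrder (Iio i) := ⟨fun j => by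
            obtain ⟨k, hk1, hk2⟩ := hi.lt_iff_exists_lt.1 j.2
            exact ⟨⟨k, hk1⟩, hk2⟩⟩
          have hcard : #(Iio i) ≤ #M := mk_set_le _
          have hlamL : lam κ' i < L := by
            have h1 : lam κ' i ≤ #(Iio i) * κ' i := by
              calc lam κ' i ≤ Cardinal.sum (fun _ : Iio i => κ' i) :=
                    Cardinal.sum_le_sum _ _ fun j => (hmono' j.2).le
                _ = #(Iio i) * κ' i := by simp
            have h2 : #(Iio i) * κ' i ≤ κ' i :=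
              (mul_le_mul_left (hcard.trans (hM' i).le) _).trans
                (mul_eq_self (hreg' i).aleph0_le).le
            exact (h1.trans h2).trans_lt (hlt' i)
          have hlam0 : ℵ₀ ≤ lam κ' i := (hreg' j₀).aleph0_le.trans (le_lam κ' hj₀)
          have hlt2 : ∀ j : Iio i, κ' j < lam κ' i := by
            intro j
            obtain ⟨k, hk⟩ := hnomax.exists_gt j
            exact (hmono' hk).trans_le (hmem k)
          have hsup2 : ∀ μ < lam κ' i, ∃ j : Iio i, μ < κ' j := by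
            intro μ hμ
            by_contra hcon
            push Not at hcon
            have hμ0 : ℵ₀ ≤ μ := (hreg' j₀).aleph0_le.trans (hcon ⟨j₀, hj₀⟩)
            have hMμ : #(Iio i) ≤ μ := hcard.trans ((hM' j₀).le.trans (hcon ⟨j₀, hj₀⟩))
            have h1 : lam κ' i ≤ #(Iio i) * μ := by
              calc lam κ' i ≤ Cardinal.sum (fun _ : Iio i => μ) :=
                    Cardinal.sum_le_sum _ _ hcon
                _ = #(Iio i) * μ := by simp
            have h2 : #(Iio i) * μ ≤ μ :=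
              (mul_le_mul_left hMμ _).trans (mul_eq_self hμ0).le
            exact absurd hμ (not_lt.2 (h1.trans h2))
          have hcardlt : #(Iio i) < lam κ' i :=
            hcard.trans_lt ((hM' j₀).trans_le (le_lam κ' hj₀))
          have hsing : (lam κ' i).IsSingular := by
            refine ⟨hlam0, fun hcof' => ?_⟩
            have h1 : ⨆ j : Iio i, κ' j < lam κ' i :=
              iSup_lt_of_cof (by rw [hcof']; exact hcardlt) _ hlt2
            obtain ⟨j, hj⟩ := hsup2 _ h1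
            exact absurd (le_ciSup (f := fun j : Iio i => κ' j) Cardinal.bddAbove_of_small j)
              (not_le.2 hj)
          exact IH (lam κ' i) hlamL hsing (Iio i) (fun j => κ' j) (fun a b hab => hmono' hab)
            (fun j => hreg' j) hlt2 hsup2 hcardlt)
        have hMne : Nonempty M := by
          rw [← mk_ne_zero_iff]; exact (aleph0_pos.trans h0).ne'
        refine ⟨H, fun f => ?_⟩
        obtain ⟨ξ, hξ⟩ := hH f
        exact ⟨ξ, hξ.frequently⟩

end Pool.Agent.Lib.MP_c014b8_lc
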