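import Mathlib

/-!
Club guessing in a weak form: if every subset of size at most `ν⁺⁺` of a well order `W` is
strictly bounded, then there is a family of subsets of `W` of size greater than `ν`, indexed
by `W`, such that every club subset of `W` contains a member of the family.
-/

open Cardinal Set Order

universe u

namespace Pool.Agent.Lib.MP_c014b8_lc

/-- Recursion on a well order, where the step sees the truncation of the function. -/
theorem exists_rec {W : Type*} {T : Type*} [LinearOrder W] [WellFoundedLT W] (t₀ : T)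
    (step : W → (W → T) → T) :
    ∃ ξ : W → T, ∀ i, ξ i = step i (fun k => if k < i then ξ k else t₀) := by
  let F : (i : W) → ((k : W) → k < i → T) → T :=
    fun i rec => step i (fun k => if h : k < i then rec k h else t₀)
  refine ⟨WellFounded.fix (wellFounded_lt) F, fun i => ?_⟩
  rw [WellFounded.fix_eq]
  show step i _ = step i _
  congr 1

/-- The maximal elements of a subset of a well order form a set of size at most one, and every
other element has a successor. -/
theorem exists_succ_of_exists_lt {S : Type*} [LinearOrder S] [WellFoundedLT S] (A : Set S)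
    (k : S) (hk : ∃ k' ∈ A, k < k') : ∃ k' ∈ A, k < k' ∧ ∀ j ∈ A, k < j → k' ≤ j := by
  obtain ⟨m, hm, hmin⟩ := WellFounded.has_min (wellFounded_lt (α := S)) {k' | k' ∈ A ∧ k < k'} hk
  exact ⟨m, hm.1, hm.2, fun j hjA hj => not_lt.1 (hmin j ⟨hjA, hj⟩)⟩

/-- A strictly increasing family of subsets of an infinite type `I`, indexed by a well order,
has size at most that of `I`. -/
theorem mk_le_of_strictMono {S I : Type u} [LinearOrder S] [WellFoundedLT S] [Infinite I]
    (F : S → Set I) (hF : StrictMono F) : #S ≤ #I := by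
  classical
  have key2 : ∀ k : {k : S // ∃ k', k < k'}, ∃ m : I,
      m ∉ F k.1 ∧ ∀ j, k.1 < j → m ∈ F j := by
    intro k
    obtain ⟨k', -, hk', hmin⟩ := exists_succ_of_exists_lt (univ : Set S) k.1
      (by obtain ⟨k', hk'⟩ := k.2; exact ⟨k', mem_univ _, hk'⟩)
    obtain ⟨m, hm1, hm2⟩ := Set.exists_of_ssubset (hF hk')
    exact ⟨m, hm2, fun j hj => (hF.monotone (hmin j (mem_univ _) hj)) hm1⟩
  choose m hm1 hm2 using key2
  have hinj : Function.Injective m := by
    intro a b hab
    rcases lt_trichotomy a.1 b.1 with h | h | h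
    · exact absurd (hab ▸ hm2 a b.1 h) (hm1 b)
    · exact Subtype.ext h
    · exact absurd (hab ▸ hm2 b a.1 h) (by rw [hab]; rw [← hab]; exact hm1 a)
  have hc1 : #{k : S | ∃ k', k < k'} ≤ #I := mk_le_of_injective hinj
  have hc2 : #{k : S | ¬ ∃ k', k < k'} ≤ 1 := by
    rw [mk_le_one_iff_set_subsingleton]
    intro a ha b hb
    simp only [mem_ofPred_eq, not_exists, not_lt] at ha hb
    exact le_antisymm (hb a) (ha b)
  have hun : (univ : Set S) ⊆ {k : S | ∃ k', k < k'} ∪ {k : S | ¬ ∃ k', k < k'} := by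
    intro x _
    by_cases h : ∃ k', x < k'
    · exact Or.inl h
    · exact Or.inr h
  have h1 : #S ≤ #I + 1 := by
    rw [← mk_univ]
    exact (mk_le_mk_of_subset hun).trans ((mk_union_le _ _).trans (add_le_add hc1 hc2))
  rwa [add_one_eq (aleph0_le_mk I)] at h1

theorem mk_Iio_ord_lt {c : Cardinal.{u}} (i : c.ord.ToType) : #(Iio i) < c := by
  have h := Cardinal.mk_Iio_lt i (by simp)
  rwa [mk_ord_toType] at h

theorem bdd_of_isRegular {κ : Cardinal.{u}} (hκ : κ.IsRegular) (s : Set κ.ord.ToType)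
    (hs : #s < κ) : ∃ b, ∀ a ∈ s, a < b := by
  by_contra h
  push Not at h
  have : IsCofinal s := fun b => by
    obtain ⟨a, ha, hb⟩ := h b
    exact ⟨a, ha, hb⟩
  have h2 := Order.cof_le this
  have h3 : Order.cof κ.ord.ToType = κ := by
    rw [← hκ.cof_ord]
    simp
  rw [h3] at h2
  exact absurd h2 (not_le.2 hs)

/-- Pigeonhole: a set of size greater than `ν` which is coloured by at most `ν` colours has a
monochromatic subset of size greater than `ν`. -/
theorem pigeon {S I : Type u} {ν : Cardinal.{u}} (hν : ℵ₀ ≤ ν) (hI : #I ≤ ν) (A : Set S)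
    (hA : ν < #A) (c : S → I) : ∃ m : I, ν < #{a | a ∈ A ∧ c a = m} := by
  by_contra h
  push Not at h
  have hun : A ⊆ ⋃ m, {a | a ∈ A ∧ c a = m} := by
    intro a ha
    exact mem_iUnion.2 ⟨c a, ha, rfl⟩
  have h1 : #A ≤ #I * ν := by
    refine (mk_le_mk_of_subset hun).trans (mk_iUnion_le_sum_mk.trans ?_)
    calc Cardinal.sum (fun m => #{a | a ∈ A ∧ c a = m}) ≤ Cardinal.sum (fun _ : I => ν) :=
          Cardinal.sum_le_sum _ _ h
      _ = #I * ν := by simp
  have h2 : #I * ν ≤ ν := (mul_le_mul_left hI ν).trans (mul_eq_self hν).le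
  exact absurd (h1.trans h2) (not_le.2 hA)

section Guess

variable {W : Type u} [LinearOrder W] [WellFoundedLT W]

/-- `C` is a cofinal subset of `Iio α` of size at most `ν⁺`, and no subset of
`Iio α` of size at most `ν` is cofinal in it. -/
def Good (ν : Cardinal.{u}) (C : Set W) (α : W) : Prop :=
  C ⊆ Iio α ∧ #C ≤ succ ν ∧ (∀ β < α, ∃ i ∈ C, β ≤ i) ∧
    ∀ B : Set W, #B ≤ ν → B ⊆ Iio α → ∃ β < α, ∀ i ∈ B, i < β

attribute [local instance]
  WellFoundedLT.toOrderBot WellFoundedLT.conditionallyCompleteLinearOrderBot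

theorem guess [Nonempty W] {ν : Cardinal.{u}} (hν : ℵ₀ ≤ ν)
    (hW : ∀ s : Set W, #s ≤ succ (succ ν) → ∃ b, ∀ a ∈ s, a < b) :
    ∃ A : W → Set W, (∀ α, ν < #(A α)) ∧ ∀ E : Set W, IsClub E → ∃ α, A α ⊆ E := by
  classical
  by_contra hcon
  push Not at hcon
  have h12' : succ ν < succ (succ ν) := lt_succ _
  have h12 : succ ν ≤ succ (succ ν) := h12'.le
  have h01' : ν < succ (succ ν) := (lt_succ ν).trans h12'
  have h01 : ν ≤ succ (succ ν) := h01'.le
  have h02 : ℵ₀ < succ ν := hν.trans_lt (lt_succ ν)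
  have hreg1 : (succ ν).IsRegular := isRegular_succ hν
  have hreg2 : (succ (succ ν)).IsRegular := isRegular_succ h02.le
  have hcof : succ (succ ν) < Order.cof W := by
    obtain ⟨s, hs, hs'⟩ := Order.exists_cof_eq (α := W)
    rw [← hs']
    by_contra h
    obtain ⟨b, hb⟩ := hW s (not_lt.1 h)
    obtain ⟨a, ha, hba⟩ := hs b
    exact absurd (hb a ha) (not_lt.2 hba)
  have hcof0 : Order.cof W ≠ ℵ₀ := ((h02.trans h12').trans hcof).ne'
  -- the family `C`
  have hC : ∀ α : W, ∃ C : Set W, (∃ C' : Set W, Good ν C' α) → Good ν C α := by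
    intro α
    by_cases h : ∃ C' : Set W, Good ν C' α
    · obtain ⟨C', hC'⟩ := h
      exact ⟨C', fun _ => hC'⟩
    · exact ⟨∅, fun h' => absurd h' h⟩
  choose C hC using hC
  let π : Set W → W → W := fun E i => sSup (E ∩ Iic i)
  have hπbdd : ∀ (E : Set W) (i : W), BddAbove (E ∩ Iic i) := fun E i => ⟨i, fun x hx => hx.2⟩
  have hπle : ∀ (E : Set W) (i : W), π E i ≤ i := fun E i => csSup_le' fun x hx => hx.2
  have hπge : ∀ (E : Set W) (i e : W), e ∈ E → e ≤ i → e ≤ π E i := fun E i e he hei =>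
    le_csSup (hπbdd E i) ⟨he, hei⟩
  have hπmono : ∀ (E F : Set W) (i : W), E ⊆ F → π E i ≤ π F i := fun E F i hEF =>
    csSup_le_csSup' (hπbdd F i) (inter_subset_inter_left _ hEF)
  have hπmem : ∀ (E : Set W) (i : W), IsClub E → π E i ≠ ⊥ → π E i ∈ E := by
    intro E i hE hne
    have hnon : (E ∩ Iic i).Nonempty := by
      by_contra h
      rw [not_nonempty_iff_eq_empty] at h
      apply hne
      show sSup (E ∩ Iic i) = ⊥
      rw [h, csSup_empty]
    exact hE.csSup_mem inter_subset_left hnon (hπbdd E i)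
  let A : Set W → W → Set W := fun E α =>
    if Good ν (C α) α ∧ ∀ β < α, ∃ e ∈ E, β < e ∧ e < α then (π E '' C α) \ {⊥} else univ
  have hA : ∀ E α, ν < #(A E α) := by
    intro E α
    by_contra hcount
    rw [not_lt] at hcount
    by_cases hcase : Good ν (C α) α ∧ ∀ β < α, ∃ e ∈ E, β < e ∧ e < α
    · simp only [A, if_pos hcase] at hcount
      obtain ⟨⟨hC1, hC2, hC3, hC4⟩, hE⟩ := hcase
      obtain ⟨β, hβ, hB⟩ := hC4 _ hcount (by
        rintro _ ⟨⟨i, hi, rfl⟩, -⟩
        exact (hπle E i).trans_lt (hC1 hi))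
      obtain ⟨e, he, hβe, heα⟩ := hE β hβ
      obtain ⟨i, hi, hei⟩ := hC3 e heα
      have h1 : e ≤ π E i := hπge E i e he hei
      have h2 : π E i ≠ ⊥ := (lt_of_le_of_lt bot_le (hβe.trans_le h1)).ne'
      have h3 := hB (π E i) ⟨⟨i, hi, rfl⟩, h2⟩
      exact absurd (h3.trans hβe) (not_lt.2 h1)
    · simp only [A, if_neg hcase] at hcount
      obtain ⟨b, hb⟩ := hW univ (hcount.trans h01)
      exact lt_irrefl b (hb b (mem_univ b))
  have hD : ∀ E : Set W, ∃ D : Set W, IsClub D ∧ ∀ α, ¬ A E α ⊆ D := by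
    intro E
    exact hcon (A E) (hA E)
  choose D hD1 hD2 using hD
  let V : Type u := (succ (succ ν)).ord.ToType
  obtain ⟨E, hE⟩ := exists_rec (W := V) (T := Set W) univ
    (fun j x => ⋂ k : Iio j, (x k ∩ D (x k)))
  have hE' : ∀ j, E j = ⋂ k : Iio j, (E k ∩ D (E k)) := by
    intro j
    rw [hE j]
    refine iInter_congr fun k => ?_
    have : (k : V) < j := k.2
    simp [this]
  have hVbdd : ∀ s : Set V, #s < succ (succ ν) → ∃ b, ∀ a ∈ s, a < b := bdd_of_isRegular hreg2
  have hVcard : #V = succ (succ ν) := mk_ord_toType _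
  have hEclub : ∀ j, IsClub (E j) := by
    intro j
    induction j using WellFoundedLT.induction with
    | ind j IH =>
      rw [hE' j]
      apply IsClub.iInter hcof0
      · simp only [Cardinal.lift_id]
        exact (mk_Iio_ord_lt j).trans hcof
      · intro k
        exact (IH k k.2).inter hcof0 (hD1 _)
  have hEanti : ∀ j k, j < k → E k ⊆ E j ∩ D (E j) := by
    intro j k hjk
    rw [hE' k]
    exact iInter_subset (fun k' : Iio k => E k' ∩ D (E k')) ⟨j, hjk⟩
  have hEanti' : ∀ j k, j ≤ k → E k ⊆ E j := by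
    intro j k hjk
    rcases hjk.eq_or_lt with rfl | h
    · exact subset_rfl
    · exact (hEanti j k h).trans inter_subset_left
  let Einf : Set W := ⋂ j, E j
  have hEinf : IsClub Einf := by
    apply IsClub.iInter hcof0
    · simp only [Cardinal.lift_id]
      rw [hVcard]; exact hcof
    · exact hEclub
  -- the point `α`
  let U : Type u := (succ ν).ord.ToType
  have hUbdd : ∀ s : Set U, #s < succ ν → ∃ b, ∀ a ∈ s, a < b := bdd_of_isRegular hreg1
  have hUcard : #U = succ ν := mk_ord_toType _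
  have hstep : ∀ (i : U) (x : U → W), ∃ e ∈ Einf, ∀ k < i, x k < e := by
    intro i x
    obtain ⟨b, hb⟩ := hW (x '' Iio i)
      (mk_image_le.trans ((mk_Iio_ord_lt i).le.trans h12))
    obtain ⟨e, he, hbe⟩ := hEinf.isCofinal b
    exact ⟨e, he, fun k hk => (hb _ (mem_image_of_mem _ hk)).trans_le hbe⟩
  choose st hst1 hst2 using hstep
  obtain ⟨e, he⟩ := exists_rec (W := U) (T := W) (Classical.arbitrary W) st
  have heE : ∀ i, e i ∈ Einf := fun i => by rw [he i]; exact hst1 _ _
  have hemono : StrictMono e := by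
    intro k i hki
    have := hst2 i (fun k => if k < i then e k else Classical.arbitrary W) k hki
    rw [he i]
    simpa [hki] using this
  have hUnomax : ∀ i : U, ∃ k, i < k := by
    intro i
    obtain ⟨b, hb⟩ := hUbdd {i} (by
      rw [mk_singleton]
      exact one_lt_aleph0.trans h02)
    exact ⟨b, hb i rfl⟩
  have : Nonempty U := by
    rw [← mk_ne_zero_iff, hUcard]
    exact (aleph0_pos.trans h02).ne'
  have hebdd : BddAbove (range e) := by
    obtain ⟨b, hb⟩ := hW (range e) (mk_range_le.trans (hUcard.le.trans h12))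
    exact ⟨b, fun x hx => (hb x hx).le⟩
  let α : W := sSup (range e)
  have heα : ∀ i, e i < α := by
    intro i
    obtain ⟨k, hk⟩ := hUnomax i
    exact (hemono hk).trans_le (le_csSup hebdd ⟨k, rfl⟩)
  have heα2 : ∀ β < α, ∃ i, β < e i := by
    intro β hβ
    obtain ⟨_, ⟨i, rfl⟩, hi⟩ := exists_lt_of_lt_csSup (range_nonempty e) hβ
    exact ⟨i, hi⟩
  have hgood : Good ν (C α) α := by
    apply hC
    refine ⟨range e, ?_, ?_, ?_, ?_⟩
    · rintro _ ⟨i, rfl⟩; exact heα i
    · exact mk_range_le.trans hUcard.le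
    · intro β hβ
      obtain ⟨i, hi⟩ := heα2 β hβ
      exact ⟨e i, ⟨i, rfl⟩, hi.le⟩
    · intro B hBc hB
      have : ∀ b : B, ∃ i, (b : W) < e i := fun b => heα2 _ (hB b.2)
      choose i hi using this
      obtain ⟨k, hk⟩ := hUbdd (range i) (mk_range_le.trans_lt (hBc.trans_lt (lt_succ ν)))
      refine ⟨e k, heα k, fun b hb => (hi ⟨b, hb⟩).trans ?_⟩
      exact hemono (hk _ ⟨⟨b, hb⟩, rfl⟩)
  have hlim : ∀ β < α, ∃ x ∈ Einf, β < x ∧ x < α := by
    intro β hβ
    obtain ⟨i, hi⟩ := heα2 β hβ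
    exact ⟨e i, heE i, hi, heα i⟩
  -- stabilization
  have : Nonempty V := by
    rw [← mk_ne_zero_iff, hVcard]
    exact ((aleph0_pos.trans h02).trans h12').ne'
  have hstab : ∀ i : W, ∃ j : V, ∀ k, j ≤ k → π (E k) i = π (E j) i := by
    intro i
    obtain ⟨m, ⟨j, rfl⟩, hmin⟩ := WellFounded.has_min (wellFounded_lt (α := W))
      (range fun j => π (E j) i) (range_nonempty _)
    refine ⟨j, fun k hk => le_antisymm (hπmono _ _ _ (hEanti' j k hk)) ?_⟩
    exact not_lt.1 (hmin _ ⟨k, rfl⟩)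
  choose J hJ using hstab
  obtain ⟨j, hj⟩ := hVbdd (J '' C α) (mk_image_le.trans_lt (hgood.2.1.trans_lt h12'))
  obtain ⟨j₁, hj₁⟩ := hVbdd {j} (by
      rw [mk_singleton]
      exact one_lt_aleph0.trans (h02.trans h12'))
  have hjj₁ : j < j₁ := hj₁ j rfl
  apply hD2 (E j) α
  have hcase : Good ν (C α) α ∧ ∀ β < α, ∃ e ∈ E j, β < e ∧ e < α := by
    refine ⟨hgood, fun β hβ => ?_⟩
    obtain ⟨x, hx, h1, h2⟩ := hlim β hβ
    exact ⟨x, mem_iInter.1 hx j, h1, h2⟩
  simp only [A, if_pos hcase]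
  rintro _ ⟨⟨i, hi, rfl⟩, hne⟩
  have h1 : J i < j := hj _ ⟨i, hi, rfl⟩
  have h2 : π (E j) i = π (E j₁) i := by
    rw [hJ i j h1.le, hJ i j₁ (h1.trans hjj₁).le]
  rw [h2]
  have hne' : π (E j₁) i ≠ ⊥ := by rw [← h2]; exact hne
  exact (hEanti j j₁ hjj₁ (hπmem _ _ (hEclub j₁) hne')).2

end Guess

end Pool.Agent.Lib.MP_c014b8_lc
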