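import Pool.Agent.Lib.MP_c014b8_lc.Tukey

/-!
The equality `pp(L) = L⁺` and scales.
-/

open Cardinal Set Order Filter

universe u v

namespace Pool.Agent.Lib.MP_c014b8_lc

/-- Every singular cardinal is the limit of a strictly increasing sequence of regular cardinals
indexed by its cofinality. -/
theorem exists_seq {L : Cardinal.{u}} (hL : L.IsSingular) :
    ∃ κ : L.ord.cof.ord.ToType → Cardinal.{u}, StrictMono κ ∧ (∀ i, (κ i).IsRegular) ∧
      (∀ i, κ i < L) ∧ ∀ μ < L, ∃ i, μ < κ i := by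
  classical
  let I : Type u := L.ord.cof.ord.ToType
  have hIcard : #I = L.ord.cof := mk_ord_toType _
  have hℵ : ℵ₀ < L := lt_of_le_of_ne hL.aleph0_le fun h => by
    rw [← h] at hL; exact not_isSingular_aleph0 hL
  obtain ⟨a, ha1, ha2⟩ := exists_cofinal_fun hL hIcard
  let T : Type (u + 1) := {c : Cardinal.{u} // c.IsRegular ∧ c < L}
  have hstep : ∀ (i : I) (x : I → T), ∃ y : T, a i < y.1 ∧ ∀ k < i, (x k).1 < y.1 := by
    intro i x
    have h1 : ⨆ k : Iio i, (x k).1 < L :=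
      iSup_lt_of_cof (mk_Iio_ord_lt i) _ fun k => (x k).2.2
    let c : Cardinal.{u} := max ℵ₀ (max (a i) (⨆ k : Iio i, (x k).1))
    have hc : c < L := max_lt hℵ (max_lt (ha1 i) h1)
    refine ⟨⟨succ c, isRegular_succ (le_max_left _ _), singular_succ_lt hL hc⟩, ?_, ?_⟩
    · exact lt_succ_of_le ((le_max_left _ _).trans (le_max_right _ _))
    · intro k hk
      refine lt_succ_of_le (le_trans ?_ ((le_max_right _ _).trans (le_max_right _ _)))
      exact le_ciSup (f := fun k : Iio i => (x k).1) Cardinal.bddAbove_of_small ⟨k, hk⟩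
  choose st hst1 hst2 using hstep
  obtain ⟨x, hx⟩ := exists_rec (W := I) (T := T) ⟨ℵ₀, isRegular_aleph0, hℵ⟩ st
  refine ⟨fun i => (x i).1, ?_, fun i => (x i).2.1, fun i => (x i).2.2, ?_⟩
  · intro k i hki
    have := hst2 i (fun k => if k < i then x k else ⟨ℵ₀, isRegular_aleph0, hℵ⟩) k hki
    rw [← hx i] at this
    simpa [hki] using this
  · intro μ hμ
    obtain ⟨i, hi⟩ := ha2 μ hμ
    refine ⟨i, hi.trans ?_⟩
    have := hst1 i (fun k => if k < i then x k else ⟨ℵ₀, isRegular_aleph0, hℵ⟩)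
    rwa [← hx i] at this

theorem prodCof_mem {I : Type u} (κ : I → Cardinal.{u}) (D : Filter I) :
    ∃ S : Set (∀ i, (κ i).ord.ToType), #S = prodCof κ D ∧
      ∀ f : (∀ i, (κ i).ord.ToType), ∃ g ∈ S, ∀ᶠ i in D, f i ≤ g i := by
  have : prodCof κ D ∈ {c | ∃ S : Set (∀ i, (κ i).ord.ToType), #S = c ∧
      ∀ f : (∀ i, (κ i).ord.ToType), ∃ g ∈ S, ∀ᶠ i in D, f i ≤ g i} :=
    csInf_mem ⟨_, univ, rfl, fun f => ⟨f, mem_univ _, Eventually.of_forall fun i => le_rfl⟩⟩
  exact this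

theorem prodCof_le {I : Type u} (κ : I → Cardinal.{u}) (D : Filter I)
    (S : Set (∀ i, (κ i).ord.ToType)) (hS : ∀ f : (∀ i, (κ i).ord.ToType), ∃ g ∈ S, ∀ᶠ i in D, f i ≤ g i) :
    prodCof κ D ≤ #S := csInf_le' ⟨S, rfl, hS⟩

theorem prodCof_le_pp {L : Cardinal.{u}} (κ : L.ord.cof.ord.ToType → Cardinal.{u})
    (D : Ultrafilter L.ord.cof.ord.ToType) (h1 : ∀ i, (κ i).IsRegular) (h2 : ∀ i, κ i < L)
    (h3 : ∀ μ < L, ∀ᶠ i in (D : Filter _), μ < κ i) : prodCof κ (D : Filter _) ≤ pp L := by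
  refine le_csSup ⟨L ^ #L.ord.cof.ord.ToType, ?_⟩ ⟨κ, D, h1, h2, h3, rfl⟩
  rintro _ ⟨κ', D', -, h2', -, rfl⟩
  refine (prodCof_le κ' _ univ fun f => ⟨f, mem_univ _, Eventually.of_forall fun i =>
    le_rfl⟩).trans ?_
  rw [mk_univ, mk_pi]
  simp only [mk_ord_toType]
  exact (Cardinal.prod_le_prod _ _ fun i => (h2' i).le).trans (by rw [prod_const']; simp)

/-- The equality `pp(L) = L⁺` implies that there are scales at `L`. -/
theorem scalesAt_of_pp {L : Cardinal.{u}} (hL : L.IsSingular) (h : pp L = succ L) :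
    ScalesAt L := by
  classical
  have hcofreg : L.ord.cof.IsRegular := isRegular_cof (Cardinal.isSuccLimit_ord hL.aleph0_le)
  apply scalesAt_of_general hL
  intro I _ _ _ _ κ hmono hreg hlt hsup hI
  refine scale_of_unbounded hL (M := L.ord.cof.ord.ToType) (mk_ord_toType _) (fun k => ?_) ?_
    κ hmono hreg hlt hsup hI
  · rw [mk_ord_toType]; exact mk_Iio_ord_lt k
  · intro κ' hmono' hreg' _ hlt' hsup'
    by_contra hcon
    push Not at hcon
    have hne : Nonempty L.ord.cof.ord.ToType := by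
      rw [← mk_ne_zero_iff, mk_ord_toType]; exact hcofreg.ne_zero
    let D : Ultrafilter L.ord.cof.ord.ToType := Ultrafilter.of atTop
    have hD : (D : Filter L.ord.cof.ord.ToType) ≤ atTop := Ultrafilter.of_le _
    have hlim : ∀ μ < L, ∀ᶠ i in (D : Filter _), μ < κ' i := by
      intro μ hμ
      obtain ⟨i, hi⟩ := hsup' μ hμ
      exact hD (eventually_atTop.2 ⟨i, fun j hj => hi.trans_le (hmono'.monotone hj)⟩)
    obtain ⟨S, hS1, hS2⟩ := prodCof_mem κ' (D : Filter _)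
    have hS3 : #S ≤ #((succ L).ord.ToType) := by
      rw [hS1, mk_ord_toType, ← h]
      exact prodCof_le_pp κ' D hreg' hlt' hlim
    have hKne : ∀ i, Nonempty (κ' i).ord.ToType := by
      intro i
      rw [← mk_ne_zero_iff, mk_ord_toType]; exact (hreg' i).ne_zero
    obtain ⟨g₀, hg₀, -⟩ := hS2 fun i => Classical.arbitrary _
    have hSne : Nonempty S := ⟨⟨g₀, hg₀⟩⟩
    obtain ⟨e⟩ := hS3
    let H : (succ L).ord.ToType → ∀ i, (κ' i).ord.ToType := fun ξ => (Function.invFun e ξ).1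
    have hH : ∀ g ∈ S, ∃ ξ, H ξ = g := fun g hg => ⟨e ⟨g, hg⟩, by
      simp only [H, Function.leftInverse_invFun e.injective ⟨g, hg⟩]⟩
    obtain ⟨f, hf⟩ := hcon H
    have hf' : ∀ i, ∃ y, f i < y := fun i => by
      obtain ⟨b, hb⟩ := bdd_of_isRegular (hreg' i) {f i} (by
        rw [mk_singleton]; exact one_lt_aleph0.trans_le (hreg' i).aleph0_le)
      exact ⟨b, hb _ rfl⟩
    choose f' hf' using hf'
    obtain ⟨g, hg, hfg⟩ := hS2 f'
    obtain ⟨ξ, rfl⟩ := hH g hg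
    have h1 : ∀ᶠ i in atTop, H ξ i ≤ f i := hf ξ
    obtain ⟨i, hi1, hi2⟩ := (hfg.and (hD h1)).exists
    have hi2' : H ξ i ≤ f i := hi2
    exact absurd ((hf' i).trans_le hi1) (not_lt.2 hi2')

/-- Families of size at most `L` are bounded modulo any filter along which `κ` tends to `L`. -/
theorem lt_prodCof {L : Cardinal.{u}} (hL : L.IsSingular)
    (κ : L.ord.cof.ord.ToType → Cardinal.{u}) (D : Filter L.ord.cof.ord.ToType) [NeBot D]
    (h1 : ∀ i, (κ i).IsRegular) (h3 : ∀ μ < L, ∀ᶠ i in D, μ < κ i) :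
    succ L ≤ prodCof κ D := by
  classical
  apply succ_le_of_lt
  by_contra hcon
  rw [not_lt] at hcon
  obtain ⟨S, hS1, hS2⟩ := prodCof_mem κ D
  rw [← hS1] at hcon
  let M : Type u := L.ord.cof.ord.ToType
  have hMcard : #M = L.ord.cof := mk_ord_toType _
  obtain ⟨a, ha1, ha2⟩ := exists_cofinal_fun hL hMcard
  have hLsum : L ≤ Cardinal.sum a := by
    by_contra hcon'
    rw [not_le] at hcon'
    obtain ⟨i, hi'⟩ := ha2 _ hcon'
    exact absurd (Cardinal.le_sum a i) (not_le.2 hi')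
  have h5 : #S ≤ #(Σ k, (a k).ord.ToType) := by
    rw [mk_sigma]
    simpa using hcon.trans hLsum
  obtain ⟨e⟩ := h5
  have h6 : ∀ i, #{s : S | a (e s).1 < κ i} ≤ Cardinal.sum (fun k : {k : M // a k < κ i} => a k) := by
    intro i
    have : Cardinal.sum (fun k : {k : M // a k < κ i} => a k) =
        #(Σ k : {k : M // a k < κ i}, (a k).ord.ToType) := by
      rw [mk_sigma]; simp
    rw [this]
    refine mk_le_of_injective (f := fun s => ⟨⟨(e s.1).1, s.2⟩, (e s.1).2⟩) ?_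
    intro x y hxy
    simp only [Sigma.mk.injEq] at hxy
    apply Subtype.ext
    apply e.injective
    exact Sigma.ext (congrArg Subtype.val hxy.1) hxy.2
  have h7 : ∀ i, ∃ y : (κ i).ord.ToType, #M < κ i → ∀ s : S, a (e s).1 < κ i → s.1 i < y := by
    intro i
    by_cases hi : #M < κ i
    · obtain ⟨b, hb⟩ := bdd_of_isRegular (h1 i) ((fun s : S => s.1 i) '' {s : S | a (e s).1 < κ i})
        (mk_image_le.trans_lt ((h6 i).trans_lt (Cardinal.sum_lt_of_isRegular (h1 i)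
          ((mk_subtype_le _).trans_lt hi) fun k => k.2)))
      exact ⟨b, fun _ s hs => hb _ ⟨s, hs, rfl⟩⟩
    · have : Nonempty (κ i).ord.ToType := by
        rw [← mk_ne_zero_iff, mk_ord_toType]; exact (h1 i).ne_zero
      exact ⟨Classical.arbitrary _, fun h => absurd h hi⟩
  choose f hf using h7
  obtain ⟨g, hg, hfg⟩ := hS2 f
  have h8 := (h3 _ (hMcard ▸ hL.cof_ord_lt : #M < L)).and (h3 _ (ha1 (e ⟨g, hg⟩).1))
  obtain ⟨i, hi1, hi2, hi3⟩ := (hfg.and h8).exists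
  exact absurd (hf i hi2 ⟨g, hg⟩ hi3) (not_lt.2 hi1)

/-- Scales at `L` (for all well ordered index types) imply that all the ultraproducts in the
definition of `pp(L)` have cofinality at most `L⁺`. -/
theorem prodCof_le_succ {L : Cardinal.{u}} (hL : L.IsSingular)
    (h : ∀ (I : Type u) [LinearOrder I] [WellFoundedLT I] [Nonempty I] [NoMaxOrder I]
    (κ : I → Cardinal.{u}), StrictMono κ → (∀ i, (κ i).IsRegular) →
    (∀ i, κ i < L) → (∀ μ < L, ∃ i, μ < κ i) → #I < L → HasScale κ L)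
    (κ : L.ord.cof.ord.ToType → Cardinal.{u}) (D : Filter L.ord.cof.ord.ToType) [NeBot D]
    (h1 : ∀ i, (κ i).IsRegular) (h2 : ∀ i, κ i < L) (h3 : ∀ μ < L, ∀ᶠ i in D, μ < κ i) :
    prodCof κ D ≤ succ L := by
  classical
  let M : Type u := L.ord.cof.ord.ToType
  have hMcard : #M = L.ord.cof := mk_ord_toType _
  have hML : #M < L := hMcard ▸ hL.cof_ord_lt
  -- representatives of the values of `κ`
  obtain ⟨R, v, hinj, hrep⟩ : ∃ (R : Type u) (v : R → M), Function.Injective (fun j => κ (v j)) ∧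
      ∀ i, #M < κ i → ∃ j, κ (v j) = κ i := by
    refine ⟨{i : M // #M < κ i ∧ ∀ j < i, κ j ≠ κ i}, Subtype.val, ?_, fun i hi => ?_⟩
    · rintro ⟨i, hi⟩ ⟨j, hj⟩ hij
      have hij' : κ i = κ j := hij
      rcases lt_trichotomy i j with h | h | h
      · exact absurd hij' (hj.2 i h)
      · exact Subtype.ext h
      · exact absurd hij'.symm (hi.2 j h)
    · obtain ⟨j, hj, hmin⟩ := WellFounded.has_min (wellFounded_lt (α := M)) {j | κ j = κ i}
        ⟨i, rfl⟩
      refine ⟨⟨j, ?_, fun k hk hk' => hmin k (hk'.trans hj) hk⟩, hj⟩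
      have hj' : κ j = κ i := hj
      rw [hj']; exact hi
  have hRM : #R ≤ #M := mk_le_of_injective (f := v) fun a b hab => hinj (congrArg κ hab)
  let _ : LinearOrder R := LinearOrder.lift' (fun j : R => κ (v j)) hinj
  have hlt_iff : ∀ a b : R, a < b ↔ κ (v a) < κ (v b) := fun a b => Iff.rfl
  have hle_iff : ∀ a b : R, a ≤ b ↔ κ (v a) ≤ κ (v b) := fun a b => Iff.rfl
  have : WellFoundedLT R :=
    ⟨InvImage.wf (fun j : R => κ (v j)) (wellFounded_lt (α := Cardinal.{u}))⟩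
  have hcofR : ∀ μ < L, ∃ j : R, μ < κ (v j) := by
    intro μ hμ
    obtain ⟨i, hi1, hi2⟩ := ((h3 _ hML).and (h3 _ hμ)).exists
    obtain ⟨j, hj⟩ := hrep i hi1
    exact ⟨j, by rw [hj]; exact hi2⟩
  have : Nonempty R := by
    obtain ⟨j, -⟩ := hcofR 0 (aleph0_pos.trans_le hL.aleph0_le)
    exact ⟨j⟩
  have : NoMaxOrder R := ⟨fun j => by
    obtain ⟨k, hk⟩ := hcofR _ (h2 (v j))
    exact ⟨k, hk⟩⟩
  obtain ⟨g, hg1, hg2⟩ := h R (fun j => κ (v j)) (fun a b hab => hab) (fun j => h1 _)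
    (fun j => h2 _) hcofR (hRM.trans_lt hML)
  let C : Type (u + 1) := {c : Cardinal.{u} // c.IsRegular}
  have hCne : ∀ c : C, Nonempty c.1.ord.ToType := by
    intro c
    rw [← mk_ne_zero_iff, mk_ord_toType]; exact c.2.ne_zero
  choose G hG using fun ξ => extend_fun (K := fun c : C => c.1.ord.ToType)
    (fun j : R => (⟨κ (v j), h1 _⟩ : C)) (fun a b hab => hinj (congrArg Subtype.val hab)) (g ξ)
  let H : (succ L).ord.ToType → ∀ i, (κ i).ord.ToType := fun ξ i => G ξ ⟨κ i, h1 i⟩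
  refine (prodCof_le κ D (range H) fun f => ?_).trans (mk_range_le.trans (mk_ord_toType _).le)
  have hF : ∀ c : C, ∃ y : c.1.ord.ToType, #M < c.1 → ∀ (i : M) (hi : κ i = c.1),
      (hi ▸ f i : c.1.ord.ToType) < y := by
    intro c
    by_cases hc : #M < c.1
    · obtain ⟨b, hb⟩ := bdd_of_isRegular c.2
        (range fun i : {i : M // κ i = c.1} => (i.2 ▸ f i.1 : c.1.ord.ToType))
        (mk_range_le.trans_lt ((mk_subtype_le _).trans_lt hc))
      exact ⟨b, fun _ i hi => hb _ ⟨⟨i, hi⟩, rfl⟩⟩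
    · exact ⟨Classical.arbitrary _, fun h' => absurd h' hc⟩
  choose F hF using hF
  have hF' : ∀ i, #M < κ i → f i < F ⟨κ i, h1 i⟩ := fun i hi => hF ⟨κ i, h1 i⟩ hi i rfl
  obtain ⟨ξ, hξ⟩ := hg2 fun j => F ⟨κ (v j), h1 _⟩
  obtain ⟨j₀, hj₀⟩ := eventually_atTop.1 hξ
  refine ⟨H ξ, ⟨ξ, rfl⟩, ?_⟩
  filter_upwards [h3 _ hML, h3 _ (h2 (v j₀))] with i hi1 hi2
  obtain ⟨j, hj⟩ := hrep i hi1
  have h4 := hj₀ j ((hle_iff _ _).2 (by rw [hj]; exact hi2.le))
  have h5 : F ⟨κ i, h1 i⟩ < G ξ ⟨κ i, h1 i⟩ := by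
    have h6 : (⟨κ i, h1 i⟩ : C) = ⟨κ (v j), h1 _⟩ := Subtype.ext hj.symm
    rw [h6]
    have h7 := hG ξ j
    rw [h7]
    exact h4
  exact ((hF' i hi1).trans h5).le

theorem pp_eq_of_general {L : Cardinal.{u}} (hL : L.IsSingular)
    (h : ∀ (I : Type u) [LinearOrder I] [WellFoundedLT I] [Nonempty I] [NoMaxOrder I]
    (κ : I → Cardinal.{u}), StrictMono κ → (∀ i, (κ i).IsRegular) →
    (∀ i, κ i < L) → (∀ μ < L, ∃ i, μ < κ i) → #I < L → HasScale κ L) : pp L = succ L := by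
  have hcofreg : L.ord.cof.IsRegular := isRegular_cof (Cardinal.isSuccLimit_ord hL.aleph0_le)
  have hne : Nonempty L.ord.cof.ord.ToType := by
    rw [← mk_ne_zero_iff, mk_ord_toType]; exact hcofreg.ne_zero
  have hall : ∀ c ∈ {c | ∃ (κ : L.ord.cof.ord.ToType → Cardinal.{u})
      (D : Ultrafilter L.ord.cof.ord.ToType),
      (∀ i, (κ i).IsRegular) ∧ (∀ i, κ i < L) ∧ (∀ μ < L, ∀ᶠ i in (D : Filter _), μ < κ i) ∧
      c = prodCof κ (D : Filter _)}, c = succ L := by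
    rintro _ ⟨κ, D, h1, h2, h3, rfl⟩
    exact le_antisymm (prodCof_le_succ hL h κ _ h1 h2 h3) (lt_prodCof hL κ _ h1 h3)
  obtain ⟨κ, hmono, hreg, hlt, hsup⟩ := exists_seq hL
  have hmem : succ L ∈ {c | ∃ (κ : L.ord.cof.ord.ToType → Cardinal.{u})
      (D : Ultrafilter L.ord.cof.ord.ToType),
      (∀ i, (κ i).IsRegular) ∧ (∀ i, κ i < L) ∧ (∀ μ < L, ∀ᶠ i in (D : Filter _), μ < κ i) ∧
      c = prodCof κ (D : Filter _)} := by
    let D : Ultrafilter L.ord.cof.ord.ToType := Ultrafilter.of atTop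
    have hD : (D : Filter L.ord.cof.ord.ToType) ≤ atTop := Ultrafilter.of_le _
    have hlim : ∀ μ < L, ∀ᶠ i in (D : Filter _), μ < κ i := by
      intro μ hμ
      obtain ⟨i, hi⟩ := hsup μ hμ
      exact hD (eventually_atTop.2 ⟨i, fun j hj => hi.trans_le (hmono.monotone hj)⟩)
    exact ⟨κ, D, hreg, hlt, hlim, (hall _ ⟨κ, D, hreg, hlt, hlim, rfl⟩).symm⟩
  apply le_antisymm
  · exact csSup_le' fun c hc => (hall c hc).le
  · exact le_csSup ⟨succ L, fun c hc => (hall c hc).le⟩ hmem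

/-- The local equivalence at a singular cardinal of countable cofinality. -/
theorem local_pp_tfae {L : Cardinal.{u}} (hL : L.IsSingular) (hcof : L.ord.cof = ℵ₀) :
    List.TFAE [Q1At L, DirQ1At L, pp L = succ L, OmegaScalesAt L, OmegaUnboundedAt L] := by
  have H := local_tfae hL hcof
  tfae_have 1 → 2 := dirQ1At_of_q1At
  tfae_have 2 → 5 := omegaUnbounded_of_dirQ1At hL hcof
  tfae_have 5 → 4 := omegaScales_of_omegaUnbounded hL hcof
  tfae_have 4 → 3 := fun h => pp_eq_of_general hL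
    fun I _ _ _ _ κ h1 h2 h3 h4 h5 =>
      scale_of_omegaUnbounded hL hcof (omegaUnbounded_of_omegaScales h) κ h1 h2 h3 h4 h5
  tfae_have 3 → 1 := fun h => q1At_of_scalesAt hL (scalesAt_of_pp hL h)
  tfae_finish

/-- The global equivalence. -/
theorem global_pp_tfae :
    List.TFAE [∀ L : Cardinal.{u}, L.IsSingular → Q1At L,
      ∀ L : Cardinal.{u}, L.IsSingular → DirQ1At L,
      ∀ L : Cardinal.{u}, L.IsSingular → pp L = succ L,
      ∀ L : Cardinal.{u}, L.IsSingular → L.ord.cof = ℵ₀ → pp L = succ L,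
      ∀ L : Cardinal.{u}, L.IsSingular → L.ord.cof = ℵ₀ → OmegaScalesAt L] := by
  tfae_have 1 → 2 := fun h L hL => dirQ1At_of_q1At (h L hL)
  tfae_have 2 → 5 := fun h L hL hcof =>
    omegaScales_of_omegaUnbounded hL hcof (omegaUnbounded_of_dirQ1At hL hcof (h L hL))
  tfae_have 5 → 3 := fun h L hL => pp_eq_of_general hL (scale_all h L hL)
  tfae_have 3 → 4 := fun h L hL _ => h L hL
  tfae_have 4 → 5 := fun h L hL hcof => ((local_pp_tfae hL hcof).out 2 3).1 (h L hL hcof)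
  tfae_have 3 → 1 := fun h L hL => q1At_of_scalesAt hL (scalesAt_of_pp hL (h L hL))
  tfae_finish

end Pool.Agent.Lib.MP_c014b8_lc
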