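import Pool.Agent.Lib.MP_c014b8_lc.Strong

/-!
If every unbounded part of a product of regular cardinals has an unbounded family (modulo bounded
sets) of size `λ⁺`, then the product has a scale of length `λ⁺`.
-/

open Cardinal Set Order Filter

universe u

namespace Pool.Agent.Lib.MP_c014b8_lc

section

variable {I : Type u} [LinearOrder I] [Infinite I] {K : I → Type u} [∀ i, LinearOrder (K i)]
  {Θ : Type u} [LinearOrder Θ] [WellFoundedLT Θ] {L : Cardinal.{u}}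

/-- `g` is increasing modulo bounded sets and for all `f` above `f₀` the set of all `i` with
`f i < g ξ i` is eventually equal to `b`, modulo bounded sets. -/
def Stab (n₁ : I) (g : Θ → ∀ i, K i) (f₀ : ∀ i, K i) (b : Set I) : Prop :=
  (∀ ξ η, ξ < η → ∀ᶠ i in atTop, g ξ i < g η i) ∧
    ∀ f : ∀ i, K i, (∀ i, n₁ ≤ i → f₀ i ≤ f i) →
      ∃ ξ₀, ∀ ξ, ξ₀ ≤ ξ → ∀ᶠ i in atTop, (f i < g ξ i ↔ i ∈ b)

theorem exists_stab (hL : ℵ₀ ≤ L) (hνL : succ (succ (succ #I)) ≤ L)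
    (hΘ : ∀ s : Set Θ, #s ≤ L → ∃ b, ∀ a ∈ s, a < b) (hΘ' : ∀ ξ : Θ, #(Iio ξ) ≤ L)
    (hB : ∀ (J : Type u) (F : J → ∀ i, K i), #J ≤ L →
      ∃ g : ∀ i, K i, ∀ j, ∀ᶠ i in atTop, F j i < g i)
    (n₁ : I) (hK : ∀ i, n₁ ≤ i → ∀ s : Set (K i), #s ≤ succ (succ (succ #I)) →
      ∃ b, ∀ a ∈ s, a < b)
    (h : Θ → ∀ i, K i) :
    ∃ (g : Θ → ∀ i, K i) (f₀ : ∀ i, K i) (b : Set I), (∀ ξ i, h ξ i ≤ g ξ i) ∧
      Stab n₁ g f₀ b := by
  classical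
  set ν := #I with hνdef
  have hν : ℵ₀ ≤ ν := aleph0_le_mk I
  have h1 : ν < succ ν := lt_succ ν
  have h2 : succ ν < succ (succ ν) := lt_succ _
  have h3 : succ (succ ν) < succ (succ (succ ν)) := lt_succ _
  have hreg : (succ (succ (succ ν))).IsRegular :=
    isRegular_succ ((hν.trans_lt (h1.trans h2)).le)
  have hreg1 : (succ ν).IsRegular := isRegular_succ hν
  let W : Type u := (succ (succ (succ ν))).ord.ToType
  have hWcard : #W = succ (succ (succ ν)) := mk_ord_toType _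
  have hWbdd : ∀ s : Set W, #s < succ (succ (succ ν)) → ∃ b, ∀ a ∈ s, a < b :=
    bdd_of_isRegular hreg
  have : Nonempty W := by
    rw [← mk_ne_zero_iff, hWcard]
    exact ((aleph0_pos.trans_le hν).trans (h1.trans (h2.trans h3))).ne'
  obtain ⟨g, hg1, hg2, hg3⟩ := exists_club_seq (Θ := Θ) hL hΘ' hB PUnit
    (by rw [mk_punit]; exact one_lt_aleph0.le.trans hL) (fun _ => W)
    (fun _ s hs => hWbdd s ((le_aleph0_iff_set_countable.2 hs).trans_lt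
      (hν.trans_lt (h1.trans (h2.trans h3)))))
    (fun _ => eventually_atTop.2 ⟨n₁, fun i hi s hs => hK i hi s (by rw [← hWcard]; exact hs)⟩) h
  have hgle : ∀ ξ η, ξ ≤ η → ∀ᶠ i in atTop, g ξ i ≤ g η i := by
    intro ξ η h
    rcases h.eq_or_lt with rfl | h
    · exact Eventually.of_forall fun i => le_rfl
    · exact (hg2 ξ η h).mono fun i hi => hi.le
  -- stability
  have hstab : ∀ f : ∀ i, K i, ∃ ξ₀, ∀ ξ, ξ₀ ≤ ξ → ∀ᶠ i in atTop, (f i < g ξ i → f i < g ξ₀ i) := by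
    intro f
    by_contra hcon
    push Not at hcon
    have hN : ∀ ξ₀ : Θ, ∃ N : Θ, ∀ η, N ≤ η → ∃ᶠ i in atTop, f i < g η i ∧ g ξ₀ i ≤ f i := by
      intro ξ₀
      obtain ⟨ξ, -, hξ⟩ := hcon ξ₀
      refine ⟨ξ, fun η hη => ?_⟩
      have := hξ.and_eventually (hgle ξ η hη)
      exact this.mono fun i hi => ⟨hi.1.1.trans_le hi.2, hi.1.2⟩
    choose N hN using hN
    obtain ⟨X, ζ, m, hX1, hX2, hX3⟩ := exists_strong_sub (Θ := Θ) (K := K) hν le_rfl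
      (W := W) (fun s hs => hWbdd s (hs.trans_lt h3))
      (fun s hs => hΘ s (hs.trans (hWcard.le.trans hνL))) g hg2 (hg3 PUnit.unit) N
    let F : X → Set I := fun k => {i | m ≤ i ∧ f i < g (ζ k) i}
    have hF : StrictMono F := by
      intro k k' hkk'
      refine ⟨fun i hi => ⟨hi.1, hi.2.trans (hX3 i hi.1 k k.2 k' k'.2 hkk')⟩, fun hsub => ?_⟩
      have h4 := (hN (ζ k) (ζ k') (hX2 k k.2 k' k'.2 hkk')).and_eventually (eventually_ge_atTop m)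
      obtain ⟨i, ⟨h5, h6⟩, h7⟩ := h4.exists
      exact absurd (hsub ⟨h7, h5⟩).2 (not_lt.2 h6)
    exact absurd (mk_le_of_strictMono F hF) (not_le.2 hX1)
  choose β hβ using hstab
  let b : (∀ i, K i) → Set I := fun f => {i | f i < g (β f) i}
  have hb : ∀ f ξ, β f ≤ ξ → ∀ᶠ i in atTop, (f i < g ξ i ↔ i ∈ b f) := by
    intro f ξ hξ
    filter_upwards [hβ f ξ hξ, hgle _ _ hξ] with i h4 h5
    exact ⟨h4, fun h6 => lt_of_lt_of_le h6 h5⟩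
  have hanti : ∀ f f' : ∀ i, K i, (∀ i, n₁ ≤ i → f i ≤ f' i) →
      ∀ᶠ i in atTop, i ∈ b f' → i ∈ b f := by
    intro f f' hff'
    filter_upwards [hb f (max (β f) (β f')) (le_max_left _ _),
      hb f' (max (β f) (β f')) (le_max_right _ _), eventually_ge_atTop n₁] with i h4 h5 h6 h7
    exact h4.1 (lt_of_le_of_lt (hff' i h6) (h5.2 h7))
  have hex : ∃ f₀ : ∀ i, K i, ∀ f : ∀ i, K i, (∀ i, n₁ ≤ i → f₀ i ≤ f i) →
      ∀ᶠ i in atTop, i ∈ b f₀ → i ∈ b f := by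
    by_contra hcon
    push Not at hcon
    let U : Type u := (succ ν).ord.ToType
    have hUcard : #U = succ ν := mk_ord_toType _
    have hΘne : Nonempty Θ := by
      obtain ⟨b, -⟩ := hΘ ∅ (by simp)
      exact ⟨b⟩
    obtain ⟨t₀⟩ := hΘne
    have hstep : ∀ (i : U) (x : U → ∀ n, K n), ∃ f : ∀ n, K n,
        ∀ k < i, (∀ n, n₁ ≤ n → x k n ≤ f n) ∧ ∃ᶠ n in atTop, n ∈ b (x k) ∧ n ∉ b f := by
      intro i x
      have : ∀ n, ∃ y : K n, n₁ ≤ n → ∀ k < i, x k n ≤ y := by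
        intro n
        by_cases hn : n₁ ≤ n
        · obtain ⟨y, hy⟩ := hK n hn ((fun k => x k n) '' Iio i)
            (mk_image_le.trans ((mk_Iio_ord_lt i).le.trans (h2.trans h3).le))
          exact ⟨y, fun _ k hk => (hy _ (mem_image_of_mem _ hk)).le⟩
        · exact ⟨g t₀ n, fun h => absurd h hn⟩
      choose y hy using this
      obtain ⟨f, hf1, hf2⟩ := hcon y
      refine ⟨f, fun k hk => ⟨fun n hn => (hy n hn k hk).trans (hf1 n hn), ?_⟩⟩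
      have h4 := hanti (x k) y fun n hn => hy n hn k hk
      exact (hf2.and_eventually h4).mono fun n hn => ⟨hn.2 hn.1.1, hn.1.2⟩
    choose st hst using hstep
    obtain ⟨x, hx⟩ := exists_rec (W := U) (T := ∀ n, K n) (g t₀) st
    have hx' : ∀ k i, k < i → (∀ n, n₁ ≤ n → x k n ≤ x i n) ∧
        ∃ᶠ n in atTop, n ∈ b (x k) ∧ n ∉ b (x i) := by
      intro k i hki
      have := hst i (fun k => if k < i then x k else g t₀) k hki
      rw [← hx i] at this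
      simpa [hki] using this
    obtain ⟨ξs, hξs⟩ := hΘ (range fun i => β (x i))
      (mk_range_le.trans (hUcard.le.trans ((h2.trans h3).le.trans hνL)))
    let F : U → Set I := fun i => {n | n₁ ≤ n ∧ g ξs n ≤ x i n}
    have hF : StrictMono F := by
      intro k i hki
      obtain ⟨h4, h5⟩ := hx' k i hki
      refine ⟨fun n hn => ⟨hn.1, hn.2.trans (h4 n hn.1)⟩, fun hsub => ?_⟩
      have h6 := h5.and_eventually ((hb (x k) ξs (hξs _ ⟨k, rfl⟩).le).and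
        ((hb (x i) ξs (hξs _ ⟨i, rfl⟩).le).and (eventually_ge_atTop n₁)))
      obtain ⟨n, ⟨h7, h8⟩, h9, h10, h11⟩ := h6.exists
      have h12 : n ∈ F i := ⟨h11, not_lt.1 fun h => h8 (h10.1 h)⟩
      exact absurd (h9.2 h7) (not_lt.2 (hsub h12).2)
    have := mk_le_of_strictMono F hF
    rw [hUcard] at this
    exact absurd this (not_le.2 h1)
  obtain ⟨f₀, hf₀⟩ := hex
  refine ⟨g, f₀, b f₀, hg1, hg2, fun f hf => ⟨β f, fun ξ hξ => ?_⟩⟩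
  filter_upwards [hb f ξ hξ, hf₀ f hf, hanti f₀ f hf] with i h4 h5 h6
  exact h4.trans ⟨h6, h5⟩

theorem exists_scale (hL : ℵ₀ ≤ L) (hνL : succ (succ (succ #I)) ≤ L)
    (hΘ : ∀ s : Set Θ, #s ≤ L → ∃ b, ∀ a ∈ s, a < b) (hΘ' : ∀ ξ : Θ, #(Iio ξ) ≤ L)
    (hB : ∀ (J : Type u) (F : J → ∀ i, K i), #J ≤ L →
      ∃ g : ∀ i, K i, ∀ j, ∀ᶠ i in atTop, F j i < g i)
    (n₁ : I) (hK : ∀ i, n₁ ≤ i → ∀ s : Set (K i), #s ≤ succ (succ (succ #I)) →
      ∃ b, ∀ a ∈ s, a < b)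
    (hunb : ∀ c : Set I, (∃ᶠ i in atTop, i ∈ c) → ∃ H : Θ → ∀ i, K i, ∀ f : ∀ i, K i,
      ∃ ξ, ∃ᶠ i in atTop, i ∈ c ∧ f i < H ξ i) :
    ∃ g : Θ → ∀ i, K i, (∀ ξ η, ξ < η → ∀ᶠ i in atTop, g ξ i < g η i) ∧
      ∀ f : ∀ i, K i, ∃ ξ, ∀ᶠ i in atTop, f i < g ξ i := by
  classical
  by_contra hno
  set ν := #I with hνdef
  have hν : ℵ₀ ≤ ν := aleph0_le_mk I
  have h1 : ν < succ ν := lt_succ ν
  have h2 : succ ν < succ (succ ν) := lt_succ _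
  have h3 : succ (succ ν) < succ (succ (succ ν)) := lt_succ _
  have hstabex := fun h => exists_stab (Θ := Θ) (K := K) hL hνL hΘ hΘ' hB n₁ hK h
  let T : Type u := {p : (Θ → ∀ i, K i) × (∀ i, K i) × Set I // Stab n₁ p.1 p.2.1 p.2.2}
  have hTmono : ∀ p : T, ∀ ξ η, ξ ≤ η → ∀ᶠ i in atTop, p.1.1 ξ i ≤ p.1.1 η i := by
    intro p ξ η h
    rcases h.eq_or_lt with rfl | h
    · exact Eventually.of_forall fun i => le_rfl
    · exact (p.2.1 ξ η h).mono fun i hi => hi.le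
  have hcomp : ∀ p : T, ∃ᶠ i in atTop, i ∉ p.1.2.2 := by
    intro p hcon
    apply hno
    refine ⟨p.1.1, p.2.1, fun f => ?_⟩
    obtain ⟨ξ₀, hξ₀⟩ := p.2.2 (fun i => max (f i) (p.1.2.1 i)) fun i _ => le_max_right _ _
    refine ⟨ξ₀, ?_⟩
    filter_upwards [hξ₀ ξ₀ le_rfl, hcon] with i h4 h5
    exact lt_of_le_of_lt (le_max_left _ _) (h4.2 (not_not.1 h5))
  have hbmono : ∀ p q : T, (∀ ξ i, n₁ ≤ i → p.1.1 ξ i ≤ q.1.1 ξ i) →
      ∀ᶠ i in atTop, i ∈ p.1.2.2 → i ∈ q.1.2.2 := by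
    intro p q hpq
    obtain ⟨ξ₀, hξ₀⟩ := p.2.2 (fun i => max (p.1.2.1 i) (q.1.2.1 i)) fun i _ => le_max_left _ _
    obtain ⟨ξ₁, hξ₁⟩ := q.2.2 (fun i => max (p.1.2.1 i) (q.1.2.1 i)) fun i _ => le_max_right _ _
    filter_upwards [hξ₀ (max ξ₀ ξ₁) (le_max_left _ _), hξ₁ (max ξ₀ ξ₁) (le_max_right _ _),
      eventually_ge_atTop n₁] with i h4 h5 h6 h7
    exact h5.1 ((h4.2 h7).trans_le (hpq _ i h6))
  have himp : ∀ p : T, ∃ q : T, (∀ ξ i, n₁ ≤ i → p.1.1 ξ i ≤ q.1.1 ξ i) ∧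
      ∃ᶠ i in atTop, i ∈ q.1.2.2 ∧ i ∉ p.1.2.2 := by
    intro p
    obtain ⟨H, hH⟩ := hunb {i | i ∉ p.1.2.2} (hcomp p)
    obtain ⟨g', f', b', hg', hS⟩ := hstabex fun ξ i => max (p.1.1 ξ i) (H ξ i)
    refine ⟨⟨(g', f', b'), hS⟩, fun ξ i _ => (le_max_left _ _).trans (hg' ξ i), ?_⟩
    obtain ⟨ξ, hξ⟩ := hH f'
    obtain ⟨ξ₀, hξ₀⟩ := hS.2 f' fun i _ => le_rfl
    have h4 := hTmono ⟨(g', f', b'), hS⟩ ξ (max ξ ξ₀) (le_max_left _ _)
    refine (hξ.and_eventually (h4.and (hξ₀ (max ξ ξ₀) (le_max_right _ _)))).mono ?_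
    rintro i ⟨⟨h5, h6⟩, h7, h8⟩
    refine ⟨h8.1 ?_, h5⟩
    calc f' i < H ξ i := h6
      _ ≤ g' ξ i := (le_max_right _ _).trans (hg' ξ i)
      _ ≤ g' (max ξ ξ₀) i := h7
  let U : Type u := (succ ν).ord.ToType
  have hUcard : #U = succ ν := mk_ord_toType _
  -- a base point
  have hΘne : Nonempty Θ := by
    obtain ⟨b, -⟩ := hΘ ∅ (by simp)
    exact ⟨b⟩
  obtain ⟨t₀⟩ := hΘne
  obtain ⟨k₀, -⟩ := hB PEmpty (fun j => j.elim) (by simp)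
  obtain ⟨g₀, f₀, b₀, -, hS₀⟩ := hstabex fun _ => k₀
  let p₀ : T := ⟨(g₀, f₀, b₀), hS₀⟩
  have hstep : ∀ (i : U) (x : U → T), ∃ y : T, ∀ k < i,
      (∀ ξ n, n₁ ≤ n → (x k).1.1 ξ n ≤ y.1.1 ξ n) ∧
        ∃ᶠ n in atTop, n ∈ y.1.2.2 ∧ n ∉ (x k).1.2.2 := by
    intro i x
    have : ∀ (ξ : Θ) (n : I), ∃ y : K n, n₁ ≤ n → ∀ k < i, (x k).1.1 ξ n ≤ y := by
      intro ξ n
      by_cases hn : n₁ ≤ n
      · obtain ⟨y, hy⟩ := hK n hn ((fun k => (x k).1.1 ξ n) '' Iio i)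
          (mk_image_le.trans ((mk_Iio_ord_lt i).le.trans (h2.trans h3).le))
        exact ⟨y, fun _ k hk => (hy _ (mem_image_of_mem _ hk)).le⟩
      · exact ⟨k₀ n, fun h => absurd h hn⟩
    choose h hh using this
    obtain ⟨g', f', b', hg', hS⟩ := hstabex h
    obtain ⟨q, hq1, hq2⟩ := himp ⟨(g', f', b'), hS⟩
    refine ⟨q, fun k hk => ⟨fun ξ n hn => ?_, ?_⟩⟩
    · exact (hh ξ n hn k hk).trans ((hg' ξ n).trans (hq1 ξ n hn))
    · have h4 := hbmono (x k) ⟨(g', f', b'), hS⟩ fun ξ n hn => (hh ξ n hn k hk).trans (hg' ξ n)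
      exact (hq2.and_eventually h4).mono fun n hn => ⟨hn.1.1, fun h5 => hn.1.2 (hn.2 h5)⟩
  choose st hst using hstep
  obtain ⟨x, hx⟩ := exists_rec (W := U) (T := T) p₀ st
  have hx' : ∀ k i, k < i → (∀ ξ n, n₁ ≤ n → (x k).1.1 ξ n ≤ (x i).1.1 ξ n) ∧
        ∃ᶠ n in atTop, n ∈ (x i).1.2.2 ∧ n ∉ (x k).1.2.2 := by
    intro k i hki
    have := hst i (fun k => if k < i then x k else p₀) k hki
    rw [← hx i] at this
    simpa [hki] using this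
  have : ∀ n : I, ∃ y : K n, n₁ ≤ n → ∀ k, (x k).1.2.1 n ≤ y := by
    intro n
    by_cases hn : n₁ ≤ n
    · obtain ⟨y, hy⟩ := hK n hn (range fun k => (x k).1.2.1 n)
        (mk_range_le.trans (hUcard.le.trans (h2.trans h3).le))
      exact ⟨y, fun _ k => (hy _ ⟨k, rfl⟩).le⟩
    · exact ⟨k₀ n, fun h => absurd h hn⟩
  choose f hf using this
  have : ∀ k : U, ∃ ξ₀, ∀ ξ, ξ₀ ≤ ξ → ∀ᶠ n in atTop, (f n < (x k).1.1 ξ n ↔ n ∈ (x k).1.2.2) :=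
    fun k => (x k).2.2 f fun n hn => hf n hn k
  choose β hβ using this
  obtain ⟨ξs, hξs⟩ := hΘ (range β)
    (mk_range_le.trans (hUcard.le.trans ((h2.trans h3).le.trans hνL)))
  let F : U → Set I := fun k => {n | n₁ ≤ n ∧ f n < (x k).1.1 ξs n}
  have hF : StrictMono F := by
    intro k i hki
    obtain ⟨h4, h5⟩ := hx' k i hki
    refine ⟨fun n hn => ⟨hn.1, hn.2.trans_le (h4 ξs n hn.1)⟩, fun hsub => ?_⟩
    have h6 := h5.and_eventually ((hβ k ξs (hξs _ ⟨k, rfl⟩).le).and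
      ((hβ i ξs (hξs _ ⟨i, rfl⟩).le).and (eventually_ge_atTop n₁)))
    obtain ⟨n, ⟨h7, h8⟩, h9, h10, h11⟩ := h6.exists
    exact h8 (h9.1 (hsub ⟨h11, h10.2 h7⟩).2)
  have := mk_le_of_strictMono F hF
  rw [hUcard] at this
  exact absurd this (not_le.2 h1)

end

end Pool.Agent.Lib.MP_c014b8_lc
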