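import Pool.Agent.Lib.MP_c014b8_lc.Guess

/-!
Increasing sequences modulo bounded sets in products of well orders: existence of sequences which
dominate suprema along clubs, and existence of long everywhere increasing subsequences.
-/

open Cardinal Set Order Filter

universe u

namespace Pool.Agent.Lib.MP_c014b8_lc

theorem exists_isLUB {T : Type*} [LinearOrder T] [WellFoundedLT T] (s : Set T)
    (hs : ∃ b, ∀ a ∈ s, a ≤ b) : ∃ η, IsLUB s η := by
  obtain ⟨m, hm, hmin⟩ := WellFounded.has_min (wellFounded_lt (α := T)) {b | ∀ a ∈ s, a ≤ b} hs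
  exact ⟨m, fun a ha => hm a ha, fun b hb => not_lt.1 (hmin b fun a ha => hb ha)⟩

/-- Two normal functions with the same supremum agree on a club. -/
theorem isClub_agree {W T : Type*} [LinearOrder W] [WellFoundedLT W] [LinearOrder T]
    (hW : ∀ s : Set W, s.Countable → ∃ b, ∀ a ∈ s, a < b) (ξ e : W → T) (δ : T)
    (hξ : IsNormal ξ) (he : IsNormal e) (h1 : IsLUB (range ξ) δ) (h2 : IsLUB (range e) δ) :
    IsClub {k | ξ k = e k} := by
  have hnomax : ∀ k : W, ∃ k', k < k' := fun k => by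
    obtain ⟨b, hb⟩ := hW {k} (countable_singleton k)
    exact ⟨b, hb k rfl⟩
  refine ⟨?_, ?_⟩
  · rw [dirSupClosed_iff_of_linearOrder]
    intro d hd hd0 a ha
    have h3 := hξ.map_isLUB ha hd0
    have h4 := he.map_isLUB ha hd0
    have : ξ '' d = e '' d := image_congr fun x hx => hd hx
    rw [this] at h3
    exact h3.unique h4
  · intro k0
    have hstep : ∀ k : W, ∃ k', k < k' ∧ ξ k ≤ e k' ∧ e k ≤ ξ k' := by
      intro k
      obtain ⟨k', hk'⟩ := hnomax k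
      have h3 : ξ k < δ := (hξ.strictMono hk').trans_le (h1.1 ⟨k', rfl⟩)
      have h4 : e k < δ := (he.strictMono hk').trans_le (h2.1 ⟨k', rfl⟩)
      obtain ⟨_, ⟨a, rfl⟩, ha⟩ := (lt_isLUB_iff h2).1 h3
      obtain ⟨_, ⟨b, rfl⟩, hb⟩ := (lt_isLUB_iff h1).1 h4
      refine ⟨max k' (max a b), hk'.trans_le (le_max_left _ _), ?_, ?_⟩
      · exact ha.le.trans (he.monotone ((le_max_left a b).trans (le_max_right _ _)))
      · exact hb.le.trans (hξ.monotone ((le_max_right a b).trans (le_max_right _ _)))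
    choose f hf1 hf2 hf3 using hstep
    let c : ℕ → W := fun n => f^[n] k0
    have hc : ∀ n, c (n + 1) = f (c n) := fun n => Function.iterate_succ_apply' f n k0
    obtain ⟨b, hb⟩ := hW (range c) (countable_range c)
    obtain ⟨a, ha⟩ := exists_isLUB (range c) ⟨b, fun x hx => (hb x hx).le⟩
    refine ⟨a, ?_, ha.1 ⟨0, rfl⟩⟩
    have h3 := hξ.map_isLUB ha (range_nonempty c)
    have h4 := he.map_isLUB ha (range_nonempty c)
    show ξ a = e a
    apply le_antisymm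
    · apply h3.2
      rintro _ ⟨_, ⟨n, rfl⟩, rfl⟩
      have : ξ (c n) ≤ e (c (n + 1)) := by rw [hc]; exact hf2 _
      exact this.trans (h4.1 ⟨_, ⟨n + 1, rfl⟩, rfl⟩)
    · apply h4.2
      rintro _ ⟨_, ⟨n, rfl⟩, rfl⟩
      have : e (c n) ≤ ξ (c (n + 1)) := by rw [hc]; exact hf3 _
      exact this.trans (h3.1 ⟨_, ⟨n + 1, rfl⟩, rfl⟩)

section

variable {I : Type u} [LinearOrder I] [Nonempty I] {K : I → Type u} [∀ i, LinearOrder (K i)]
  {Θ : Type u} [LinearOrder Θ] [WellFoundedLT Θ] {L : Cardinal.{u}}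

/-- Existence of increasing sequences which dominate suprema along clubs. -/
theorem exists_club_seq (hL : ℵ₀ ≤ L) (hΘ' : ∀ ξ : Θ, #(Iio ξ) ≤ L)
    (hB : ∀ (J : Type u) (F : J → ∀ i, K i), #J ≤ L →
      ∃ g : ∀ i, K i, ∀ j, ∀ᶠ i in atTop, F j i < g i)
    (A : Type u) (hA : #A ≤ L) (W : A → Type u) [∀ a, LinearOrder (W a)]
    [∀ a, WellFoundedLT (W a)] (hWc : ∀ a, ∀ s : Set (W a), s.Countable → ∃ b, ∀ x ∈ s, x < b)
    (hWK : ∀ a, ∀ᶠ i in atTop, ∀ s : Set (K i), #s ≤ #(W a) → ∃ b, ∀ x ∈ s, x < b)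
    (h : Θ → ∀ i, K i) :
    ∃ g : Θ → ∀ i, K i, (∀ ξ i, h ξ i ≤ g ξ i) ∧
      (∀ ξ η, ξ < η → ∀ᶠ i in atTop, g ξ i < g η i) ∧
      ∀ a (ξ : W a → Θ) (δ : Θ), IsNormal ξ → IsLUB (range ξ) δ →
        ∃ E : Set (W a), IsClub E ∧ ∀ᶠ i in atTop, ∀ k ∈ E, g (ξ k) i ≤ g δ i := by
  classical
  rcases isEmpty_or_nonempty Θ with hΘe | ⟨⟨t₀⟩⟩
  · exact ⟨h, fun ξ => (hΘe.false ξ).elim, fun ξ => (hΘe.false ξ).elim,
      fun a ξ δ => (hΘe.false δ).elim⟩
  have he₀ : ∀ a (δ : Θ), ∃ e : W a → Θ,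
      (∃ e' : W a → Θ, IsNormal e' ∧ IsLUB (range e') δ) → IsNormal e ∧ IsLUB (range e) δ := by
    intro a δ
    by_cases hex : ∃ e' : W a → Θ, IsNormal e' ∧ IsLUB (range e') δ
    · obtain ⟨e', he'⟩ := hex
      exact ⟨e', fun _ => he'⟩
    · exact ⟨fun _ => t₀, fun h' => absurd h' hex⟩
  choose e₀ he₀ using he₀
  have hstep : ∀ (δ : Θ) (x : Θ → ∀ i, K i), ∃ y : ∀ i, K i, (∀ i, h δ i ≤ y i) ∧
      (∀ ζ < δ, ∀ᶠ i in atTop, x ζ i < y i) ∧
      ∀ a, ∀ᶠ i in atTop, ∀ k, x (e₀ a δ k) i ≤ y i := by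
    intro δ x
    have hz : ∀ a, ∃ z : ∀ i, K i, ∀ᶠ i in atTop, ∀ k, x (e₀ a δ k) i ≤ z i := by
      intro a
      have : ∀ i, ∃ z : K i, (∀ s : Set (K i), #s ≤ #(W a) → ∃ b, ∀ x ∈ s, x < b) →
          ∀ k, x (e₀ a δ k) i ≤ z := by
        intro i
        by_cases hbd : ∀ s : Set (K i), #s ≤ #(W a) → ∃ b, ∀ x ∈ s, x < b
        · obtain ⟨b, hb⟩ := hbd (range fun k => x (e₀ a δ k) i) mk_range_le
          exact ⟨b, fun _ k => (hb _ ⟨k, rfl⟩).le⟩
        · exact ⟨x t₀ i, fun h' => absurd h' hbd⟩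
      choose z hz using this
      exact ⟨z, (hWK a).mono fun i hi => hz i hi⟩
    choose z hz using hz
    obtain ⟨y, hy⟩ := hB ((Iio δ) ⊕ A) (Sum.elim (fun ζ => x ζ) z) (by
      rw [mk_sum]
      simp only [Cardinal.lift_id]
      exact (add_le_add (hΘ' δ) hA).trans (add_eq_self hL).le)
    refine ⟨fun i => max (h δ i) (y i), fun i => le_max_left _ _, fun ζ hζ => ?_, fun a => ?_⟩
    · filter_upwards [hy (Sum.inl ⟨ζ, hζ⟩)] with i hi
      exact hi.trans_le (le_max_right _ _)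
    · filter_upwards [hy (Sum.inr a), hz a] with i hi hi' k
      exact (hi' k).trans (hi.le.trans (le_max_right _ _))
  choose st hst1 hst2 hst3 using hstep
  obtain ⟨g, hg⟩ := exists_rec (W := Θ) (T := ∀ i, K i) (h t₀) st
  refine ⟨g, fun ξ i => ?_, fun ξ η hξη => ?_, fun a ξ δ hξ hδ => ?_⟩
  · rw [hg ξ]; exact hst1 _ _ i
  · have := hst2 η (fun k => if k < η then g k else h t₀) ξ hξη
    rw [hg η]
    simpa [hξη] using this
  · have he := he₀ a δ ⟨ξ, hξ, hδ⟩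
    refine ⟨{k | ξ k = e₀ a δ k}, isClub_agree (hWc a) ξ _ δ hξ he.1 hδ he.2, ?_⟩
    have h3 := hst3 δ (fun k => if k < δ then g k else h t₀) a
    filter_upwards [h3] with i hi k hk
    have hk' : ξ k = e₀ a δ k := hk
    have hlt : e₀ a δ k < δ := by
      obtain ⟨k', hk'⟩ := hWc a {k} (countable_singleton k)
      exact (he.1.strictMono (hk' k rfl)).trans_le (he.2.1 ⟨k', rfl⟩)
    have h4 := hi k
    rw [if_pos hlt] at h4
    rw [hk', hg δ]
    exact h4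

/-- Long everywhere increasing subsequences. -/
theorem exists_strong_sub {ν : Cardinal.{u}} (hν : ℵ₀ ≤ ν) (hI : #I ≤ ν)
    {W : Type u} [LinearOrder W] [WellFoundedLT W] [Nonempty W]
    (hW : ∀ s : Set W, #s ≤ succ (succ ν) → ∃ b, ∀ a ∈ s, a < b)
    (hΘ : ∀ s : Set Θ, #s ≤ #W → ∃ b, ∀ a ∈ s, a < b)
    (g : Θ → ∀ i, K i) (hg : ∀ ξ η, ξ < η → ∀ᶠ i in atTop, g ξ i < g η i)
    (hclub : ∀ (ξ : W → Θ) (δ : Θ), IsNormal ξ → IsLUB (range ξ) δ →
        ∃ E : Set W, IsClub E ∧ ∀ᶠ i in atTop, ∀ k ∈ E, g (ξ k) i ≤ g δ i)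
    (N : Θ → Θ) :
    ∃ (X : Set W) (ζ : W → Θ) (m : I), ν < #X ∧
      (∀ k ∈ X, ∀ k' ∈ X, k < k' → N (ζ k) ≤ ζ k') ∧
      (∀ i, m ≤ i → ∀ k ∈ X, ∀ k' ∈ X, k < k' → g (ζ k) i < g (ζ k') i) := by
  classical
  obtain ⟨A, hA1, hA2⟩ := guess hν hW
  have hΘne : Nonempty Θ := by
    obtain ⟨b, -⟩ := hΘ ∅ (by simp)
    exact ⟨b⟩
  obtain ⟨t₀⟩ := hΘne
  have hgle : ∀ ξ η, ξ ≤ η → ∀ᶠ i in atTop, g ξ i ≤ g η i := by
    intro ξ η h
    rcases h.eq_or_lt with rfl | h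
    · exact Eventually.of_forall fun i => le_rfl
    · exact (hg ξ η h).mono fun i hi => hi.le
  have hWone : (1 : Cardinal.{u}) ≤ #W := by
    rw [Cardinal.one_le_iff_ne_zero, mk_ne_zero_iff]; infer_instance
  let R : Set W → Θ → (W → Θ) → Prop := fun B σ x => ∀ᶠ i in atTop, ∀ k' ∈ B, g (x k') i < g σ i
  have hRmono : ∀ B σ η x, σ ≤ η → R B σ x → R B η x := by
    intro B σ η x h hR
    filter_upwards [hR, hgle σ η h] with i h1 h2 k' hk'
    exact (h1 k' hk').trans_le h2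
  have hΘ2 : ∀ a b : Θ, ∃ c, a ≤ c ∧ b ≤ c := fun a b => ⟨max a b, le_max_left _ _, le_max_right _ _⟩
  have hnext : ∀ (k : W) (x : W → Θ), ∃ η, x k < η ∧ N (x k) ≤ η ∧
      ∀ α, (∃ σ, R (A α ∩ Iic k) σ x) → R (A α ∩ Iic k) η x := by
    intro k x
    have : ∀ α, ∃ η, (∃ σ, R (A α ∩ Iic k) σ x) → R (A α ∩ Iic k) η x := by
      intro α
      by_cases h : ∃ σ, R (A α ∩ Iic k) σ x
      · obtain ⟨σ, hσ⟩ := h
        exact ⟨σ, fun _ => hσ⟩
      · exact ⟨t₀, fun h' => absurd h' h⟩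
    choose η hη using this
    obtain ⟨b, hb⟩ := hΘ (range η) mk_range_le
    obtain ⟨c, hc⟩ := hΘ {x k} (by rw [mk_singleton]; exact hWone)
    refine ⟨max (max b c) (N (x k)), ?_, le_max_right _ _, fun α hα => ?_⟩
    · exact (hc _ rfl).trans_le ((le_max_right _ _).trans (le_max_left _ _))
    · exact hRmono _ _ _ _ ((hb _ ⟨α, rfl⟩).le.trans ((le_max_left _ _).trans (le_max_left _ _)))
        (hη α hα)
  choose nx hnx1 hnx2 hnx3 using hnext
  let tr : W → (W → Θ) → (W → Θ) := fun k x k' => if k' ≤ k then x k' else t₀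
  have hstep : ∀ (i : W) (x : W → Θ), ∃ y, IsLUB {y | ∃ k < i, y = nx k (tr k x)} y := by
    intro i x
    apply exists_isLUB
    obtain ⟨b, hb⟩ := hΘ (range fun k => nx k (tr k x)) mk_range_le
    refine ⟨b, ?_⟩
    rintro _ ⟨k, -, rfl⟩
    exact (hb _ ⟨k, rfl⟩).le
  choose st hst using hstep
  obtain ⟨ξ, hξ⟩ := exists_rec (W := W) (T := Θ) t₀ st
  let M : W → Θ := fun k => nx k (tr k ξ)
  have hξ' : ∀ i, IsLUB {y | ∃ k < i, y = M k} (ξ i) := by
    intro i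
    have h1 := hst i (fun k => if k < i then ξ k else t₀)
    rw [← hξ i] at h1
    have h2 : {y | ∃ k < i, y = nx k (tr k (fun k => if k < i then ξ k else t₀))} =
        {y | ∃ k < i, y = M k} := by
      ext y
      constructor
      · rintro ⟨k, hk, rfl⟩
        refine ⟨k, hk, ?_⟩
        show nx k _ = nx k _
        congr 1
        funext k'
        simp only [tr]
        by_cases h3 : k' ≤ k
        · rw [if_pos h3, if_pos h3, if_pos (h3.trans_lt hk)]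
        · rw [if_neg h3, if_neg h3]
      · rintro ⟨k, hk, rfl⟩
        refine ⟨k, hk, ?_⟩
        show nx k _ = nx k _
        congr 1
        funext k'
        simp only [tr]
        by_cases h3 : k' ≤ k
        · rw [if_pos h3, if_pos h3, if_pos (h3.trans_lt hk)]
        · rw [if_neg h3, if_neg h3]
    rwa [h2] at h1
  have htr : ∀ k k', k' ≤ k → tr k ξ k' = ξ k' := fun k k' h => if_pos h
  have hM1 : ∀ k, ξ k < M k := by
    intro k
    have := hnx1 k (tr k ξ)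
    rwa [htr k k le_rfl] at this
  have hM2 : ∀ k, N (ξ k) ≤ M k := by
    intro k
    have := hnx2 k (tr k ξ)
    rwa [htr k k le_rfl] at this
  have hM3 : ∀ k i, k < i → M k ≤ ξ i := fun k i hki => (hξ' i).1 ⟨k, hki, rfl⟩
  have hmono : StrictMono ξ := fun k i hki => (hM1 k).trans_le (hM3 k i hki)
  have hnormal : IsNormal ξ := by
    rw [isNormal_iff]
    refine ⟨hmono, fun o ho a ha => ?_⟩
    apply (hξ' o).2
    rintro _ ⟨k, hk, rfl⟩
    obtain ⟨k', hk'1, hk'2⟩ := ho.lt_iff_exists_lt.1 hk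
    exact (hM3 k k' hk'2).trans (ha k' hk'1)
  obtain ⟨b, hb⟩ := hΘ (range ξ) mk_range_le
  obtain ⟨δ, hδ⟩ := exists_isLUB (range ξ) ⟨b, fun x hx => (hb x hx).le⟩
  obtain ⟨E, hE, hE2⟩ := hclub ξ δ hnormal hδ
  obtain ⟨α, hα⟩ := hA2 E hE
  obtain ⟨δ', hδ'⟩ := hΘ {δ} (by rw [mk_singleton]; exact hWone)
  have hδδ' : δ < δ' := hδ' δ rfl
  have hR : ∀ k, ∀ᶠ i in atTop, ∀ k' ∈ A α, k' ≤ k → g (ξ k') i < g (M k) i := by
    intro k
    have h1 : R (A α ∩ Iic k) δ' (tr k ξ) := by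
      filter_upwards [hE2, hg δ δ' hδδ'] with i h1 h2 k' hk'
      rw [htr k k' hk'.2]
      exact (h1 k' (hα hk'.1)).trans_lt h2
    have h2 := hnx3 k (tr k ξ) α ⟨δ', h1⟩
    filter_upwards [h2] with i h3 k' hk' hle
    have := h3 k' ⟨hk', hle⟩
    rwa [htr k k' hle] at this
  let A' : Set W := {k | k ∈ A α ∧ ∃ k' ∈ A α, k < k'}
  have hA' : ν < #A' := by
    by_contra hcon
    rw [not_lt] at hcon
    have hsub : A α ⊆ A' ∪ {k | k ∈ A α ∧ ¬ ∃ k' ∈ A α, k < k'} := by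
      intro x hx
      by_cases h : ∃ k' ∈ A α, x < k'
      · exact Or.inl ⟨hx, h⟩
      · exact Or.inr ⟨hx, h⟩
    have h1 : #{k | k ∈ A α ∧ ¬ ∃ k' ∈ A α, k < k'} ≤ 1 := by
      rw [mk_le_one_iff_set_subsingleton]
      rintro a ⟨ha, ha'⟩ b ⟨hb, hb'⟩
      push Not at ha' hb'
      exact le_antisymm (hb' a ha) (ha' b hb)
    have h2 : #(A α) ≤ ν + 1 :=
      (mk_le_mk_of_subset hsub).trans ((mk_union_le _ _).trans (add_le_add hcon h1))
    rw [add_one_eq hν] at h2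
    exact absurd (hA1 α) (not_lt.2 h2)
  have hs : ∀ k : W, ∃ k' : W, k ∈ A' → k' ∈ A α ∧ k < k' ∧ ∀ j ∈ A α, k < j → k' ≤ j := by
    intro k
    by_cases hk : k ∈ A'
    · obtain ⟨k', h⟩ := exists_succ_of_exists_lt (A α) k hk.2
      exact ⟨k', fun _ => h⟩
    · exact ⟨k, fun h => absurd h hk⟩
  choose s hs using hs
  have hth : ∀ k : W, ∃ m : I, k ∈ A' → ∀ i, m ≤ i → ∀ k' ∈ A α, k' ≤ k →
      g (ξ k') i < g (ξ (s k)) i := by
    intro k
    by_cases hk : k ∈ A'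
    · have h1 := (hR k).and (hgle (M k) (ξ (s k)) (hM3 k _ (hs k hk).2.1))
      obtain ⟨m, hm⟩ := eventually_atTop.1 h1
      exact ⟨m, fun _ i hi k' hk' hle => ((hm i hi).1 k' hk' hle).trans_le (hm i hi).2⟩
    · exact ⟨Classical.arbitrary I, fun h => absurd h hk⟩
  choose th hth using hth
  obtain ⟨m, hm⟩ := pigeon hν hI A' hA' th
  refine ⟨{a | a ∈ A' ∧ th a = m}, fun k => ξ (s k), m, hm, ?_, ?_⟩
  · rintro k ⟨hk, -⟩ k' ⟨hk', -⟩ hkk'
    have h1 : s k ≤ k' := (hs k hk).2.2 k' hk'.1 hkk'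
    exact (hM2 _).trans (hM3 _ _ (h1.trans_lt (hs k' hk').2.1))
  · rintro i hi k ⟨hk, -⟩ k' ⟨hk', hk'm⟩ hkk'
    have h1 : s k ≤ k' := (hs k hk).2.2 k' hk'.1 hkk'
    exact hth k' hk' i (hk'm ▸ hi) (s k) (hs k hk).1 h1

end

end Pool.Agent.Lib.MP_c014b8_lc
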