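import Pool.Agent.Lib.MP_c014b8_lc.Assemble

/-!
The Tukey spectrum and scales.
-/

open Cardinal Set Order Filter

universe u v

namespace Pool.Agent.Lib.MP_c014b8_lc

theorem mem_tukeySpec_iff {P : Type u} [PartialOrder P] {κ : Cardinal.{u}} :
    κ ∈ tukeySpec P ↔ κ.IsRegular ∧ ∃ e : κ.ord.ToType → P, ∀ p, ∃ b, ∀ α, e α ≤ p → α ≤ b := by
  constructor
  · rintro ⟨hκ, f, hf⟩
    refine ⟨hκ, ?_⟩
    have : ∀ α : κ.ord.ToType, ∃ p, ∀ q, p ≤ q → α ≤ f q := by
      intro α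
      by_contra hcon
      push Not at hcon
      obtain ⟨x, ⟨q, hq, rfl⟩, hx⟩ := hf {q | f q < α} (fun p => by
        obtain ⟨q, hq, hq'⟩ := hcon p
        exact ⟨q, hq', hq⟩) α
      exact absurd hx (not_le.2 hq)
    choose e he using this
    exact ⟨e, fun p => ⟨f p, fun α hα => he α p hα⟩⟩
  · rintro ⟨hκ, e, he⟩
    choose f hf using he
    refine ⟨hκ, f, fun s hs α => ?_⟩
    obtain ⟨q, hq, hq'⟩ := hs (e α)
    exact ⟨f q, ⟨q, hq, rfl⟩, hf q α hq'⟩

theorem dirQ1At_of_q1At {L : Cardinal.{u}} (h : Q1At L) : DirQ1At L := by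
  intro P _ _ hdir hunb
  refine h P (fun hmem => ?_) hunb
  obtain ⟨hreg, e, he⟩ := mem_tukeySpec_iff.1 hmem
  obtain ⟨p, hp⟩ := hdir (range e) (mk_range_le.trans (mk_ord_toType _).le)
  obtain ⟨b, hb⟩ := he p
  obtain ⟨c, hc⟩ := bdd_of_isRegular hreg {b} (by
    rw [mk_singleton]; exact one_lt_aleph0.trans_le hreg.aleph0_le)
  exact absurd (hb c (hp ⟨c, rfl⟩)) (not_le.2 (hc b rfl))

theorem q1At_of_scalesAt {L : Cardinal.{u}} (hL : L.IsSingular) (h : ScalesAt L) : Q1At L := by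
  classical
  intro P _ _ hcof hunb
  have hcofreg : L.ord.cof.IsRegular := isRegular_cof (Cardinal.isSuccLimit_ord hL.aleph0_le)
  have hL0 : ℵ₀ ≤ L := hL.aleph0_le
  let I : Type u := L.ord.cof.ord.ToType
  have hIcard : #I = L.ord.cof := mk_ord_toType _
  have hIb : ∀ s : Set I, #s < L.ord.cof → ∃ b, ∀ a ∈ s, a < b := bdd_of_isRegular hcofreg
  have hnm : NoMaxOrder I := ⟨fun a => by
    have h1 : #({a} : Set I) < L.ord.cof := by
      rw [mk_singleton]; exact one_lt_aleph0.trans_le hcofreg.aleph0_le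
    obtain ⟨b, hb⟩ := hIb {a} h1
    exact ⟨b, hb a rfl⟩⟩
  have hne : Nonempty I := by
    rw [← mk_ne_zero_iff, hIcard]; exact hcofreg.ne_zero
  -- a sequence of elements of the spectrum
  obtain ⟨a, ha1, ha2⟩ := exists_cofinal_fun hL hIcard
  let T : Type (u + 1) := {c : Cardinal.{u} // c ∈ tukeySpec P ∧ c < L}
  have hstep : ∀ (i : I) (x : I → T), ∃ y : T, a i < y.1 ∧ ∀ k < i, (x k).1 < y.1 := by
    intro i x
    have h1 : ⨆ k : Iio i, (x k).1 < L :=
      iSup_lt_of_cof (mk_Iio_ord_lt i) _ fun k => (x k).2.2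
    obtain ⟨κ, hκ1, hκ2, hκ3⟩ := hunb _ (max_lt (ha1 i) h1)
    refine ⟨⟨κ, hκ1, hκ3⟩, (le_max_left _ _).trans_lt hκ2, fun k hk => ?_⟩
    refine lt_of_le_of_lt ?_ ((le_max_right _ _).trans_lt hκ2)
    exact le_ciSup (f := fun k : Iio i => (x k).1) Cardinal.bddAbove_of_small ⟨k, hk⟩
  choose st hst1 hst2 using hstep
  have hT : Nonempty T := by
    obtain ⟨κ, hκ1, hκ2, hκ3⟩ := hunb 0 (aleph0_pos.trans_le hL0)
    exact ⟨⟨κ, hκ1, hκ3⟩⟩
  obtain ⟨t₀⟩ := hT
  obtain ⟨x, hx⟩ := exists_rec (W := I) (T := T) t₀ st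
  have hx1 : ∀ i, a i < (x i).1 := by
    intro i
    have := hst1 i (fun k => if k < i then x k else t₀)
    rwa [← hx i] at this
  have hx2 : ∀ k i, k < i → (x k).1 < (x i).1 := by
    intro k i hki
    have := hst2 i (fun k => if k < i then x k else t₀) k hki
    rw [← hx i] at this
    simpa [hki] using this
  let κ : I → Cardinal.{u} := fun i => (x i).1
  have hκmono : StrictMono κ := fun k i hki => hx2 k i hki
  have hκL : ∀ i, κ i < L := fun i => (x i).2.2
  have hκsup : ∀ μ < L, ∃ i, μ < κ i := fun μ hμ => by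
    obtain ⟨i, hi⟩ := ha2 μ hμ
    exact ⟨i, hi.trans (hx1 i)⟩
  obtain ⟨g, hg1, hg2⟩ := h κ hκmono (fun i => (x i).2.1.1) (iSup_eq_of κ hκL hκsup)
  have he : ∀ i, ∃ e : (κ i).ord.ToType → P, ∀ p, ∃ b, ∀ α, e α ≤ p → α ≤ b := fun i =>
    (mem_tukeySpec_iff.1 (x i).2.1).2
  choose e he using he
  have hcof' : ∀ e : I → P, ∃ p, ∀ b, ∃ α, e α ≤ p ∧ b < α := by
    intro e
    by_contra hcon
    push Not at hcon
    exact hcof (mem_tukeySpec_iff.2 ⟨hcofreg, e, hcon⟩)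
  have hp : ∀ ξ, ∃ p, ∀ b, ∃ i, e i (g ξ i) ≤ p ∧ b < i := fun ξ => hcof' fun i => e i (g ξ i)
  choose p hp using hp
  refine mem_tukeySpec_iff.2 ⟨isRegular_succ hL0, p, fun q => ?_⟩
  choose b hb using fun i => he i q
  obtain ⟨ξ₀, hξ₀⟩ := hg2 b
  refine ⟨ξ₀, fun ξ hξ => ?_⟩
  by_contra hcon
  rw [not_le] at hcon
  obtain ⟨i₀, hi₀⟩ := eventually_atTop.1 (hξ₀.and (hg1 ξ₀ ξ hcon))
  obtain ⟨i, hi1, hi2⟩ := hp ξ i₀
  have h1 := hi₀ i hi2.le
  have h2 := hb i (g ξ i) (hi1.trans hξ)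
  exact absurd (h1.1.trans h1.2) (not_lt.2 h2)

/-- If Q1 holds at `L` for `cf(L)⁺`-directed sets and `L` has countable cofinality, then all
products of sequences cofinal in `L` have unbounded families of size `L⁺`. -/
theorem omegaUnbounded_of_dirQ1At {L : Cardinal.{u}} (hL : L.IsSingular) (hcof : L.ord.cof = ℵ₀)
    (h : DirQ1At L) : OmegaUnboundedAt L := by
  classical
  intro κ hmono hreg hsup
  obtain ⟨hlt, hsup'⟩ := of_iSup_eq κ hmono hsup
  have hL0 : ℵ₀ ≤ L := hL.aleph0_le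
  by_contra hcon
  have hall : ∀ F : (succ L).ord.ToType → ∀ i, (κ i).ord.ToType,
      ∃ f : ∀ i, (κ i).ord.ToType, ∀ ξ, ∀ᶠ i in atTop, F ξ i ≤ f i := by
    intro F
    by_contra hF
    exact hcon ⟨F, hF⟩
  have hKne : ∀ i, Nonempty (κ i).ord.ToType := by
    intro i
    rw [← mk_ne_zero_iff, mk_ord_toType]; exact (hreg i).ne_zero
  let P : Type u := ∀ n : ℕ, (κ (n + 1)).ord.ToType
  have hκ1 : ∀ n, ℵ₀ < κ (n + 1) := fun n =>
    (hreg n).aleph0_le.trans_lt (hmono (Nat.lt_succ_self n))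
  have hdirP : IsDirectedOrder P := ⟨fun a b => ⟨fun n => max (a n) (b n),
    fun n => le_max_left _ _, fun n => le_max_right _ _⟩⟩
  have hdir : ∀ s : Set P, #s ≤ L.ord.cof → BddAbove s := by
    intro s hs
    rw [hcof] at hs
    have : ∀ n, ∃ b : (κ (n + 1)).ord.ToType, ∀ x ∈ (fun f : P => f n) '' s, x < b := fun n =>
      bdd_of_isRegular (hreg _) _ (mk_image_le.trans_lt (hs.trans_lt (hκ1 n)))
    choose b hb using this
    exact ⟨b, fun f hf n => (hb n _ ⟨f, hf, rfl⟩).le⟩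
  have hspec : ∀ n, κ (n + 1) ∈ tukeySpec P := by
    intro n
    refine mem_tukeySpec_iff.2 ⟨hreg _, ?_⟩
    have hbot : ∀ m, ∃ z : (κ (m + 1)).ord.ToType, ∀ y, z ≤ y := by
      intro m
      obtain ⟨z, -, hz⟩ := WellFounded.has_min (wellFounded_lt (α := (κ (m + 1)).ord.ToType))
        univ univ_nonempty
      exact ⟨z, fun y => not_lt.1 (hz y (mem_univ _))⟩
    choose z hz using hbot
    refine ⟨fun α => Function.update z n α, fun p => ⟨p n, fun α hα => ?_⟩⟩
    have := hα n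
    simpa using this
  have hmem := h P hdir fun μ hμ => by
    obtain ⟨i, hi⟩ := hsup' μ hμ
    exact ⟨κ (i + 1), hspec i, hi.trans (hmono (Nat.lt_succ_self i)), hlt _⟩
  obtain ⟨hΘreg, e, he⟩ := mem_tukeySpec_iff.1 hmem
  -- bound the family modulo finite sets
  have hF : ∀ ξ, ∃ F : ∀ i, (κ i).ord.ToType, ∀ n, F (n + 1) = e ξ n := by
    intro ξ
    exact extend_fun (K := fun i => (κ i).ord.ToType) (fun n => n + 1)
      (fun a b hab => Nat.succ_injective hab) (e ξ)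
  choose F hF using hF
  obtain ⟨f, hf⟩ := hall F
  have hth : ∀ ξ, ∃ m : ℕ, ∀ n, m ≤ n → e ξ n ≤ f (n + 1) := by
    intro ξ
    obtain ⟨m, hm⟩ := eventually_atTop.1 (hf ξ)
    refine ⟨m, fun n hn => ?_⟩
    rw [← hF]
    exact hm (n + 1) (hn.trans (Nat.le_succ n))
  choose m hm using hth
  -- pigeonhole
  let S : Type u := Σ n : ℕ, (κ (n + 1)).ord.ToType
  let code : (succ L).ord.ToType → List S := fun ξ =>
    (List.range (m ξ)).map fun n => (⟨n, e ξ n⟩ : S)
  have hS : #S ≤ L := by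
    rw [mk_sigma]
    have h1 : Cardinal.sum (fun n : ℕ => #(κ (n + 1)).ord.ToType) ≤
        Cardinal.lift.{u} #ℕ * L := by
      refine (Cardinal.sum_le_lift_mk_mul_iSup _).trans ?_
      refine mul_le_mul_right ?_ _
      exact ciSup_le' fun n => by rw [mk_ord_toType]; exact (hlt _).le
    refine h1.trans ?_
    simp only [mk_eq_aleph0, lift_aleph0]
    exact (mul_le_mul_left hL0 _).trans (mul_eq_self hL0).le
  have hList : #(List S) ≤ L := (mk_list_le_max S).trans (max_le hL0 hS)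
  have hpig : ∃ l : List S, ∀ b, ∃ ξ, b < ξ ∧ code ξ = l := by
    by_contra hcon'
    push Not at hcon'
    choose β hβ using hcon'
    obtain ⟨b, hb⟩ := bdd_of_isRegular hΘreg (range β)
      (mk_range_le.trans_lt (hList.trans_lt (lt_succ L)))
    exact hβ (code b) b (hb _ ⟨code b, rfl⟩) rfl
  obtain ⟨l, hl⟩ := hpig
  obtain ⟨ξ₁, -, hξ₁⟩ := hl (Classical.choice (by
    rw [← mk_ne_zero_iff, mk_ord_toType]; exact hΘreg.ne_zero))
  -- one element bounds all `e ξ` with `code ξ = l`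
  let p : P := fun n => max (e ξ₁ n) (f (n + 1))
  obtain ⟨b, hb⟩ := he p
  obtain ⟨ξ, hξb, hξ⟩ := hl b
  refine absurd (hb ξ fun n => ?_) (not_le.2 hξb)
  by_cases hn : m ξ ≤ n
  · exact (hm ξ n hn).trans (le_max_right _ _)
  · rw [not_le] at hn
    have h1 : code ξ = code ξ₁ := hξ.trans hξ₁.symm
    have h2 : m ξ = m ξ₁ := by
      have := congrArg List.length h1
      simpa [code] using this
    have h3 := congrArg (fun l : List S => l[n]?) h1
    simp only [code, List.getElem?_map, List.getElem?_range hn,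
      List.getElem?_range (h2 ▸ hn), Option.map_some, Option.some.injEq] at h3
    have h4 : e ξ n = e ξ₁ n := by
      have := (Sigma.mk.injEq _ _ _ _).mp h3
      exact eq_of_heq this.2
    rw [h4]
    exact le_max_left _ _

theorem scalesAt_of_general {L : Cardinal.{u}} (hL : L.IsSingular)
    (h : ∀ (I : Type u) [LinearOrder I] [WellFoundedLT I] [Nonempty I] [NoMaxOrder I]
    (κ : I → Cardinal.{u}), StrictMono κ → (∀ i, (κ i).IsRegular) →
    (∀ i, κ i < L) → (∀ μ < L, ∃ i, μ < κ i) → #I < L → HasScale κ L) : ScalesAt L := by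
  intro κ h1 h2 h3
  have hcofreg : L.ord.cof.IsRegular := isRegular_cof (Cardinal.isSuccLimit_ord hL.aleph0_le)
  have hnm : NoMaxOrder L.ord.cof.ord.ToType := ⟨fun a => by
    obtain ⟨b, hb⟩ := bdd_of_isRegular hcofreg {a} (by
      rw [mk_singleton]; exact one_lt_aleph0.trans_le hcofreg.aleph0_le)
    exact ⟨b, hb a rfl⟩⟩
  have hne : Nonempty L.ord.cof.ord.ToType := by
    rw [← mk_ne_zero_iff, mk_ord_toType]; exact hcofreg.ne_zero
  obtain ⟨h4, h5⟩ := of_iSup_eq κ h1 h3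
  exact h _ κ h1 h2 h4 h5 (by rw [mk_ord_toType]; exact hL.cof_ord_lt)

/-- The local equivalence at a singular cardinal of countable cofinality. -/
theorem local_tfae {L : Cardinal.{u}} (hL : L.IsSingular) (hcof : L.ord.cof = ℵ₀) :
    List.TFAE [Q1At L, DirQ1At L, OmegaUnboundedAt L, OmegaScalesAt L] := by
  tfae_have 1 → 2 := dirQ1At_of_q1At
  tfae_have 2 → 3 := omegaUnbounded_of_dirQ1At hL hcof
  tfae_have 3 → 4 := omegaScales_of_omegaUnbounded hL hcof
  tfae_have 4 → 1 := fun h => q1At_of_scalesAt hL (scalesAt_of_general hL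
    fun I _ _ _ _ κ h1 h2 h3 h4 h5 =>
      scale_of_omegaUnbounded hL hcof (omegaUnbounded_of_omegaScales h) κ h1 h2 h3 h4 h5)
  tfae_finish

/-- The global equivalence. -/
theorem global_tfae :
    List.TFAE [∀ L : Cardinal.{u}, L.IsSingular → Q1At L,
      ∀ L : Cardinal.{u}, L.IsSingular → DirQ1At L,
      ∀ L : Cardinal.{u}, L.IsSingular → L.ord.cof = ℵ₀ → OmegaUnboundedAt L,
      ∀ L : Cardinal.{u}, L.IsSingular → L.ord.cof = ℵ₀ → OmegaScalesAt L,
      ∀ L : Cardinal.{u}, L.IsSingular → ScalesAt L] := by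
  tfae_have 1 → 2 := fun h L hL => dirQ1At_of_q1At (h L hL)
  tfae_have 2 → 3 := fun h L hL hcof => omegaUnbounded_of_dirQ1At hL hcof (h L hL)
  tfae_have 3 → 4 := fun h L hL hcof => omegaScales_of_omegaUnbounded hL hcof (h L hL hcof)
  tfae_have 4 → 5 := fun h L hL => scalesAt_of_general hL (scale_all h L hL)
  tfae_have 5 → 1 := fun h L hL => q1At_of_scalesAt hL (h L hL)
  tfae_finish

end Pool.Agent.Lib.MP_c014b8_lc
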