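import Pool.Agent.Lib.MP_c014b8_lc.Scale

/-!
The uncountable cofinality step: from scales on the initial segments of a product of regular
cardinals one gets a dominating family of size `λ⁺` (a Silver type argument).
-/

open Cardinal Set Order Filter

universe u

namespace Pool.Agent.Lib.MP_c014b8_lc

theorem bounded_of_mk_le {I : Type u} [LinearOrder I] [Nonempty I] [NoMaxOrder I]
    (κ κ' : I → Cardinal.{u}) {L : Cardinal.{u}} (hL : L ≤ Cardinal.sum κ)
    (hne : ∀ i, κ' i ≠ 0)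
    (hlt : ∀ᶠ i in atTop, (κ' i).IsRegular ∧ Cardinal.sum (fun j : Iio i => κ j) < κ' i)
    (J : Type u) (F : J → ∀ i, (κ' i).ord.ToType) (hJ : #J ≤ L) :
    ∃ g : ∀ i, (κ' i).ord.ToType, ∀ j, ∀ᶠ i in atTop, F j i < g i := by
  classical
  have h1 : #J ≤ #(Σ i, (κ i).ord.ToType) := by
    rw [mk_sigma]
    simpa using hJ.trans hL
  obtain ⟨e⟩ := h1
  let idx : J → I := fun j => (e j).1
  have h2 : ∀ i, #{j | idx j < i} ≤ Cardinal.sum (fun j : Iio i => κ j) := by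
    intro i
    have : Cardinal.sum (fun j : Iio i => κ j) = #(Σ j : Iio i, (κ j).ord.ToType) := by
      rw [mk_sigma]; simp
    rw [this]
    refine mk_le_of_injective (f := fun j => ⟨⟨(e j.1).1, j.2⟩, (e j.1).2⟩) ?_
    intro a b hab
    simp only [Sigma.mk.injEq] at hab
    apply Subtype.ext
    apply e.injective
    exact Sigma.ext (congrArg Subtype.val hab.1) hab.2
  have h3 : ∀ i, ∃ y : (κ' i).ord.ToType,
      ((κ' i).IsRegular ∧ Cardinal.sum (fun j : Iio i => κ j) < κ' i) →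
        ∀ j, idx j < i → F j i < y := by
    intro i
    by_cases hi : (κ' i).IsRegular ∧ Cardinal.sum (fun j : Iio i => κ j) < κ' i
    · obtain ⟨b, hb⟩ := bdd_of_isRegular hi.1 ((fun j => F j i) '' {j | idx j < i})
        (mk_image_le.trans_lt ((h2 i).trans_lt hi.2))
      exact ⟨b, fun _ j hj => hb _ ⟨j, hj, rfl⟩⟩
    · have : Nonempty (κ' i).ord.ToType := by
        rw [← mk_ne_zero_iff, mk_ord_toType]; exact hne i
      exact ⟨Classical.arbitrary _, fun h => absurd h hi⟩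
  choose g hg using h3
  refine ⟨g, fun j => ?_⟩
  filter_upwards [hlt, eventually_gt_atTop (idx j)] with i hi hij
  exact hg i hi j hij

section

variable {I : Type u} [LinearOrder I] [WellFoundedLT I]

/-- A weak form of Fodor's lemma. -/
theorem fodor (hb : ∀ s : Set I, #s < #I → ∃ b, ∀ a ∈ s, a < b) (hi : ∀ i : I, #(Iic i) < #I)
    (h0 : ℵ₀ < #I) (T : Set I) (hT : IsStationary T) (r : I → I) (hr : ∀ i ∈ T, r i < i) :
    ∃ j, ∀ b, ∃ i ∈ T, b ≤ i ∧ r i = j := by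
  by_contra hcon
  push Not at hcon
  choose B hB using hcon
  -- `hB j i`: if `i ∈ T` and `B j ≤ i` then `r i ≠ j`
  have hclub : IsClub {i | ∀ j < i, B j ≤ i} := by
    refine ⟨?_, ?_⟩
    · rw [dirSupClosed_iff_of_linearOrder]
      intro d hd hd0 a ha j hj
      obtain ⟨i, hid, hji⟩ := (lt_isLUB_iff ha).1 hj
      exact (hd hid j hji).trans (ha.1 hid)
    · intro i0
      have hstep : ∀ i : I, ∃ i', i < i' ∧ ∀ j ≤ i, B j ≤ i' := by
        intro i
        obtain ⟨b, hb1⟩ := hb (B '' Iic i) (mk_image_le.trans_lt (hi i))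
        obtain ⟨c, hc⟩ := hb {i} (by rw [mk_singleton]; exact one_lt_aleph0.trans h0)
        exact ⟨max b c, (hc i rfl).trans_le (le_max_right _ _), fun j hj =>
          (hb1 _ (mem_image_of_mem _ hj)).le.trans (le_max_left _ _)⟩
      choose f hf1 hf2 using hstep
      let c : ℕ → I := fun n => f^[n] i0
      have hc : ∀ n, c (n + 1) = f (c n) := fun n => Function.iterate_succ_apply' f n i0
      obtain ⟨b, hb'⟩ := hb (range c)
        ((le_aleph0_iff_set_countable.2 (countable_range c)).trans_lt h0)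
      obtain ⟨a, ha⟩ := exists_isLUB (range c) ⟨b, fun x hx => (hb' x hx).le⟩
      refine ⟨a, ?_, ha.1 ⟨0, rfl⟩⟩
      intro j hj
      obtain ⟨_, ⟨n, rfl⟩, hn⟩ := (lt_isLUB_iff ha).1 hj
      have : B j ≤ c (n + 1) := by rw [hc]; exact hf2 _ j hn.le
      exact this.trans (ha.1 ⟨n + 1, rfl⟩)
  obtain ⟨i, hiT, hiD⟩ := hT hclub
  exact hB (r i) i hiT (hiD _ (hr i hiT)) rfl

theorem isClub_isSuccLimit (hb : ∀ s : Set I, #s < #I → ∃ b, ∀ a ∈ s, a < b) (h0 : ℵ₀ < #I) :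
    IsClub {i : I | IsSuccLimit i} := by
  have hgen : ∀ (d : Set I) (a : I), d.Nonempty → IsLUB d a → a ∉ d → IsSuccLimit a := by
    intro d a hd0 ha had
    refine ⟨?_, ?_⟩
    · obtain ⟨x, hx⟩ := hd0
      have hxa : x < a := lt_of_le_of_ne (ha.1 hx) fun h => had (h ▸ hx)
      exact fun hmin => absurd (hmin hxa.le) (not_le.2 hxa)
    · intro b hba
      obtain ⟨x, hx, hbx⟩ := (lt_isLUB_iff ha).1 hba.1
      have hxa : x < a := lt_of_le_of_ne (ha.1 hx) fun h => had (h ▸ hx)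
      exact hba.2 hbx hxa
  refine ⟨?_, ?_⟩
  · rw [dirSupClosed_iff_of_linearOrder]
    intro d hd hd0 a ha
    by_cases had : a ∈ d
    · exact hd had
    · exact hgen d a hd0 ha had
  · intro i0
    have hstep : ∀ i : I, ∃ i', i < i' := by
      intro i
      obtain ⟨c, hc⟩ := hb {i} (by rw [mk_singleton]; exact one_lt_aleph0.trans h0)
      exact ⟨c, hc i rfl⟩
    choose f hf using hstep
    let c : ℕ → I := fun n => f^[n] i0
    have hc : ∀ n, c (n + 1) = f (c n) := fun n => Function.iterate_succ_apply' f n i0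
    obtain ⟨b, hb'⟩ := hb (range c)
      ((le_aleph0_iff_set_countable.2 (countable_range c)).trans_lt h0)
    obtain ⟨a, ha⟩ := exists_isLUB (range c) ⟨b, fun x hx => (hb' x hx).le⟩
    refine ⟨a, hgen (range c) a (range_nonempty c) ha ?_, ha.1 ⟨0, rfl⟩⟩
    rintro ⟨n, hn⟩
    have h1 : c n < c (n + 1) := by rw [hc]; exact hf _
    exact absurd (ha.1 ⟨n + 1, rfl⟩) (not_le.2 (hn ▸ h1))

/-- The cardinal sum of `κ j` over all `j < i`. -/
noncomputable def lam (κ : I → Cardinal.{u}) (i : I) : Cardinal.{u} :=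
  Cardinal.sum (fun j : Iio i => κ j)

omit [WellFoundedLT I] in
theorem le_lam (κ : I → Cardinal.{u}) {j i : I} (h : j < i) : κ j ≤ lam κ i :=
  Cardinal.le_sum (fun j : Iio i => κ j) ⟨j, h⟩

theorem ns_unbounded (hb : ∀ s : Set I, #s < #I → ∃ b, ∀ a ∈ s, a < b)
    (hi : ∀ i : I, #(Iic i) < #I) (h0 : ℵ₀ < #I) (κ : I → Cardinal.{u})
    (hreg : ∀ i, (κ i).IsRegular) (hmono : StrictMono κ) (hIκ : ∀ i, #I < κ i)
    {L : Cardinal.{u}} (hlt : ∀ i, κ i < L) (hsup : ∀ μ < L, ∃ i, μ < κ i) :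
    ∃ h : (succ L).ord.ToType → ∀ i, (succ (lam κ i)).ord.ToType,
      ∀ F : ∀ i, (succ (lam κ i)).ord.ToType, ∃ ξ, IsStationary {i | F i ≤ h ξ i} := by
  classical
  have hIne : Nonempty I := by
    rw [← mk_ne_zero_iff]; exact (aleph0_pos.trans h0).ne'
  have hnomax : ∀ i : I, ∃ i', i < i' := by
    intro i
    obtain ⟨c, hc⟩ := hb {i} (by rw [mk_singleton]; exact one_lt_aleph0.trans h0)
    exact ⟨c, hc i rfl⟩
  have : NoMaxOrder I := ⟨hnomax⟩
  have : Infinite I := by rw [Cardinal.infinite_iff]; exact h0.le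
  have hcofI : Order.cof I ≠ ℵ₀ := by
    intro hcof
    obtain ⟨s, hs, hs'⟩ := Order.exists_cof_eq (α := I)
    obtain ⟨b, hb'⟩ := hb s (by rw [hs', hcof]; exact h0)
    obtain ⟨a, ha, hba⟩ := hs b
    exact absurd (hb' a ha) (not_lt.2 hba)
  have hIL : #I < L := by
    obtain ⟨i⟩ := hIne
    exact (hIκ i).trans (hlt i)
  have hL0 : ℵ₀ ≤ L := (h0.trans hIL).le
  have hsucc : ∀ μ < L, succ μ < L := by
    intro μ hμ
    obtain ⟨i, hi'⟩ := hsup μ hμ
    exact (succ_le_of_lt hi').trans_lt (hlt i)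
  have hLsum : L ≤ Cardinal.sum κ := by
    by_contra hcon
    rw [not_le] at hcon
    obtain ⟨i, hi'⟩ := hsup _ hcon
    exact absurd (Cardinal.le_sum κ i) (not_le.2 hi')
  let Θ : Type u := (succ L).ord.ToType
  have hΘreg : (succ L).IsRegular := isRegular_succ hL0
  have hΘ : ∀ s : Set Θ, #s ≤ L → ∃ b, ∀ a ∈ s, a < b := fun s hs =>
    bdd_of_isRegular hΘreg s (hs.trans_lt (lt_succ L))
  have hΘ' : ∀ ξ : Θ, #(Iio ξ) ≤ L := fun ξ => le_of_lt_succ (mk_Iio_ord_lt ξ)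
  have hlamreg : ∀ᶠ i in atTop, ((succ (lam κ i)).IsRegular ∧
      Cardinal.sum (fun j : Iio i => κ j) < succ (lam κ i)) := by
    obtain ⟨i0⟩ := hIne
    filter_upwards [eventually_gt_atTop i0] with i hi'
    exact ⟨isRegular_succ ((hreg i0).aleph0_le.trans (le_lam κ hi')), lt_succ _⟩
  have hB := bounded_of_mk_le κ (fun i => succ (lam κ i)) hLsum
    (fun i => (bot_lt_succ (lam κ i)).ne') hlamreg
  let W : I → Type u := fun a => (succ (succ (succ (κ a)))).ord.ToType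
  have hWcard : ∀ a, #(W a) = succ (succ (succ (κ a))) := fun a => mk_ord_toType _
  have hWreg : ∀ a, (succ (succ (succ (κ a)))).IsRegular := fun a =>
    isRegular_succ (((hreg a).aleph0_le.trans (le_succ _)).trans (le_succ _))
  have hWbdd : ∀ a, ∀ s : Set (W a), #s < succ (succ (succ (κ a))) → ∃ b, ∀ x ∈ s, x < b :=
    fun a => bdd_of_isRegular (hWreg a)
  have hκ3 : ∀ a, ℵ₀ < succ (succ (succ (κ a))) := fun a =>
    (hreg a).aleph0_le.trans_lt ((lt_succ _).trans ((lt_succ _).trans (lt_succ _)))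
  have hκL : ∀ a, succ (succ (succ (κ a))) < L := fun a =>
    hsucc _ (hsucc _ (hsucc _ (hlt a)))
  have hh₀ : ∀ i, Nonempty (succ (lam κ i)).ord.ToType := by
    intro i
    rw [← mk_ne_zero_iff, mk_ord_toType]
    exact (bot_lt_succ (lam κ i)).ne'
  obtain ⟨h, -, hh2, hh3⟩ := exists_club_seq (Θ := Θ) hL0 hΘ' hB I hIL.le W
    (fun a s hs => hWbdd a s ((le_aleph0_iff_set_countable.2 hs).trans_lt (hκ3 a)))
    (fun a => by
      obtain ⟨i₀, hi₀⟩ := hsup _ (hκL a)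
      filter_upwards [eventually_gt_atTop i₀, hlamreg] with i hi' hr s hs
      refine bdd_of_isRegular hr.1 s (hs.trans_lt ?_)
      rw [hWcard]
      exact hi₀.trans_le ((le_lam κ hi').trans (le_succ _)))
    (fun _ i => Classical.arbitrary _)
  have hhle : ∀ ξ η, ξ ≤ η → ∀ᶠ i in atTop, h ξ i ≤ h η i := by
    intro ξ η h'
    rcases h'.eq_or_lt with rfl | h'
    · exact Eventually.of_forall fun i => le_rfl
    · exact (hh2 ξ η h').mono fun i hi => hi.le
  refine ⟨h, fun F => ?_⟩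
  by_contra hcon
  push Not at hcon
  -- clubs on which `h ξ` is below `F`
  have hC : ∀ ξ : Θ, ∃ C : Set I, IsClub C ∧ ∀ i ∈ C, h ξ i < F i := by
    intro ξ
    obtain ⟨t, ht1, ht2⟩ := not_isStationary_iff.1 (hcon ξ)
    refine ⟨t, ht1, fun i hi' => ?_⟩
    by_contra h'
    exact (Set.disjoint_left.1 ht2) (not_lt.1 h') hi'
  choose C hC1 hC2 using hC
  -- injections
  have hφ : ∀ i, ∃ φ : Iio (F i) → (Σ j : Iio i, (κ j).ord.ToType), Function.Injective φ := by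
    intro i
    have h1 : #(Iio (F i)) ≤ #(Σ j : Iio i, (κ j).ord.ToType) := by
      have h2 := le_of_lt_succ (mk_Iio_ord_lt (F i))
      refine h2.trans ?_
      rw [mk_sigma]
      simp [lam]
    obtain ⟨e⟩ := h1
    exact ⟨e, e.injective⟩
  choose φ hφ using hφ
  -- pressing down
  have hpress : ∀ ξ : Θ, ∃ j : I, ∀ b, ∃ i, b ≤ i ∧ ∃ hi' : h ξ i < F i,
      ((φ i ⟨h ξ i, hi'⟩).1 : I) = j := by
    intro ξ
    have hr : ∀ i, ∃ r : I, ∀ hi' : h ξ i < F i, ((φ i ⟨h ξ i, hi'⟩).1 : I) = r := by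
      intro i
      by_cases hi' : h ξ i < F i
      · exact ⟨((φ i ⟨h ξ i, hi'⟩).1 : I), fun _ => rfl⟩
      · exact ⟨i, fun h' => absurd h' hi'⟩
    choose r hr using hr
    obtain ⟨j, hj⟩ := fodor hb hi h0 (C ξ) ((hC1 ξ).isStationary hcofI) r (fun i hi' => by
      rw [← hr i (hC2 ξ i hi')]
      exact (φ i ⟨h ξ i, hC2 ξ i hi'⟩).1.2)
    refine ⟨j, fun b => ?_⟩
    obtain ⟨i, hi1, hi2, hi3⟩ := hj b
    exact ⟨i, hi2, hC2 ξ i hi1, (hr i (hC2 ξ i hi1)).trans hi3⟩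
  choose jj hjj using hpress
  -- one `j` for unboundedly many `ξ`
  have hj : ∃ j : I, ∀ ξ : Θ, ∃ η, ξ ≤ η ∧ jj η = j := by
    by_contra hcon'
    push Not at hcon'
    choose β hβ using hcon'
    obtain ⟨b, hb'⟩ := hΘ (range β) (mk_range_le.trans hIL.le)
    exact hβ (jj b) b (hb' _ ⟨jj b, rfl⟩).le rfl
  obtain ⟨j, hj⟩ := hj
  choose y hy1 hy2 using hj
  have hN : ∀ ξ : Θ, ∃ N : Θ, y ξ < N := by
    intro ξ
    obtain ⟨b, hb'⟩ := hΘ {y ξ} (by rw [mk_singleton]; exact one_lt_aleph0.le.trans hL0)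
    exact ⟨b, hb' _ rfl⟩
  choose N hN using hN
  have : Nonempty (W j) := by
    rw [← mk_ne_zero_iff, hWcard]; exact (aleph0_pos.trans (hκ3 j)).ne'
  obtain ⟨X, ζ, m, hX1, hX2, hX3⟩ := exists_strong_sub (Θ := Θ)
    (K := fun i => (succ (lam κ i)).ord.ToType) (hreg j).aleph0_le (hIκ j).le (W := W j)
    (fun s hs => hWbdd j s (hs.trans_lt (lt_succ _)))
    (fun s hs => hΘ s (hs.trans ((hWcard j).le.trans (hκL j).le))) h hh2 (hh3 j) N
  let X' : Set (W j) := {k | k ∈ X ∧ ∃ k' ∈ X, k < k'}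
  have hX' : κ j < #X' := by
    by_contra hcon'
    rw [not_lt] at hcon'
    have hsub : X ⊆ X' ∪ {k | k ∈ X ∧ ¬ ∃ k' ∈ X, k < k'} := by
      intro x hx
      by_cases h' : ∃ k' ∈ X, x < k'
      · exact Or.inl ⟨hx, h'⟩
      · exact Or.inr ⟨hx, h'⟩
    have h1 : #{k | k ∈ X ∧ ¬ ∃ k' ∈ X, k < k'} ≤ 1 := by
      rw [mk_le_one_iff_set_subsingleton]
      rintro a ⟨ha, ha'⟩ b ⟨hb1, hb2⟩
      push Not at ha' hb2
      exact le_antisymm (hb2 a ha) (ha' b hb1)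
    have h2 : #X ≤ κ j + 1 :=
      (mk_le_mk_of_subset hsub).trans ((mk_union_le _ _).trans (add_le_add hcon' h1))
    rw [add_one_eq (hreg j).aleph0_le] at h2
    exact absurd hX1 (not_lt.2 h2)
  have hs : ∀ k : W j, ∃ k' : W j, k ∈ X' → k' ∈ X ∧ k < k' ∧ ∀ l ∈ X, k < l → k' ≤ l := by
    intro k
    by_cases hk : k ∈ X'
    · obtain ⟨k', h'⟩ := exists_succ_of_exists_lt X k hk.2
      exact ⟨k', fun _ => h'⟩
    · exact ⟨k, fun h' => absurd h' hk⟩
  choose s hs using hs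
  have hit : ∀ k : W j, ∃ i : I, k ∈ X' → m ≤ i ∧ h (ζ k) i ≤ h (y (ζ k)) i ∧
      h (y (ζ k)) i < h (ζ (s k)) i ∧ ∃ hi' : h (y (ζ k)) i < F i,
        ((φ i ⟨h (y (ζ k)) i, hi'⟩).1 : I) = j := by
    intro k
    by_cases hk : k ∈ X'
    · have h1 := hhle (ζ k) (y (ζ k)) (hy1 _)
      have h2 := hh2 (y (ζ k)) (ζ (s k)) ((hN _).trans_le
        (hX2 k hk.1 (s k) (hs k hk).1 (hs k hk).2.1))
      obtain ⟨a, ha⟩ := eventually_atTop.1 (h1.and (h2.and (eventually_ge_atTop m)))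
      obtain ⟨i, hi1, hi2, hi3⟩ := hjj (y (ζ k)) a
      rw [hy2] at hi3
      exact ⟨i, fun _ => ⟨(ha i hi1).2.2, (ha i hi1).1, (ha i hi1).2.1, hi2, hi3⟩⟩
    · exact ⟨m, fun h' => absurd h' hk⟩
  choose it hit using hit
  obtain ⟨i, hi'⟩ := pigeon (hreg j).aleph0_le (hIκ j).le X' hX' it
  -- injection into `κ j`
  set X₁ : Set (W j) := {a | a ∈ X' ∧ it a = i} with hX₁
  have hval : ∀ k : X₁, ∃ hh : h (y (ζ k)) i < F i, ((φ i ⟨h (y (ζ k)) i, hh⟩).1 : I) = j := by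
    rintro ⟨k, hk, hk'⟩
    have := (hit k hk).2.2.2
    rw [hk'] at this
    exact this
  choose hv1 hv2 using hval
  have hinj : Function.Injective fun k : X₁ => h (y (ζ k)) i := by
    have hlt' : ∀ k k' : X₁, k < k' → h (y (ζ k)) i < h (y (ζ k')) i := by
      rintro ⟨k, hk, hki⟩ ⟨k', hk', hki'⟩ hkk'
      have h1 := hit k hk
      have h2 := hit k' hk'
      rw [hki] at h1
      rw [hki'] at h2
      have h3 : s k ≤ k' := (hs k hk).2.2 k' hk'.1 hkk'
      have h4 : h (ζ (s k)) i ≤ h (ζ k') i := by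
        rcases h3.eq_or_lt with h5 | h5
        · rw [h5]
        · exact (hX3 i h1.1 (s k) (hs k hk).1 k' hk'.1 h5).le
      exact h1.2.2.1.trans_le (h4.trans h2.2.1)
    intro k k' hkk'
    rcases lt_trichotomy k k' with h1 | h1 | h1
    · exact absurd hkk' (hlt' k k' h1).ne
    · exact h1
    · exact absurd hkk' (hlt' k' k h1).ne'
  have hji : ∀ k : X₁, j < i := by
    intro k
    have := (φ i ⟨h (y (ζ k)) i, hv1 k⟩).1.2
    rwa [mem_Iio, hv2 k] at this
  have hne : Nonempty X₁ := by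
    rw [← mk_ne_zero_iff]
    exact (aleph0_pos.trans_le ((hreg j).aleph0_le.trans hi'.le)).ne'
  have hji' : j < i := hji (Classical.arbitrary _)
  have hcode : ∀ k : X₁, ∃ c : (κ j).ord.ToType,
      φ i ⟨h (y (ζ k)) i, hv1 k⟩ = ⟨⟨j, hji'⟩, c⟩ := by
    intro k
    rcases hq : φ i ⟨h (y (ζ k)) i, hv1 k⟩ with ⟨⟨a, ha⟩, c⟩
    have h1 := hv2 k
    rw [hq] at h1
    have h2 : a = j := h1
    subst h2
    exact ⟨c, rfl⟩
  choose c hc using hcode
  have hcinj : Function.Injective c := by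
    intro k k' hkk'
    apply hinj
    have h1 := (hc k).trans ((congrArg (fun z => (⟨⟨j, hji'⟩, z⟩ :
      Σ j : Iio i, (κ j).ord.ToType)) hkk').trans (hc k').symm)
    have h2 := hφ i h1
    exact congrArg Subtype.val h2
  have h1 := mk_le_of_injective hcinj
  rw [mk_ord_toType] at h1
  exact absurd hi' (not_lt.2 h1)

/-- The uncountable cofinality step. -/
theorem dominating_of_scales (hb : ∀ s : Set I, #s < #I → ∃ b, ∀ a ∈ s, a < b)
    (hi : ∀ i : I, #(Iic i) < #I) (h0 : ℵ₀ < #I) (κ : I → Cardinal.{u})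
    (hreg : ∀ i, (κ i).IsRegular) (hmono : StrictMono κ) (hIκ : ∀ i, #I < κ i)
    {L : Cardinal.{u}} (hlt : ∀ i, κ i < L) (hsup : ∀ μ < L, ∃ i, μ < κ i)
    (hscale : ∀ i : I, IsSuccLimit i →
      ∃ g : (succ (lam κ i)).ord.ToType → ∀ j : Iio i, (κ j).ord.ToType,
        (∀ ξ η, ξ < η → ∀ᶠ j in atTop, g ξ j < g η j) ∧
          ∀ f : ∀ j : Iio i, (κ j).ord.ToType, ∃ ξ, ∀ᶠ j in atTop, f j < g ξ j) :
    ∃ H : (succ L).ord.ToType → ∀ i, (κ i).ord.ToType,
      ∀ f : ∀ i, (κ i).ord.ToType, ∃ ξ, ∀ᶠ i in atTop, f i < H ξ i := by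
  classical
  have hIne : Nonempty I := by
    rw [← mk_ne_zero_iff]; exact (aleph0_pos.trans h0).ne'
  have hnomax : ∀ i : I, ∃ i', i < i' := by
    intro i
    obtain ⟨c, hc⟩ := hb {i} (by rw [mk_singleton]; exact one_lt_aleph0.trans h0)
    exact ⟨c, hc i rfl⟩
  have : NoMaxOrder I := ⟨hnomax⟩
  have hcofI : Order.cof I ≠ ℵ₀ := by
    intro hcof
    obtain ⟨s, hs, hs'⟩ := Order.exists_cof_eq (α := I)
    obtain ⟨b, hb'⟩ := hb s (by rw [hs', hcof]; exact h0)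
    obtain ⟨a, ha, hba⟩ := hs b
    exact absurd (hb' a ha) (not_lt.2 hba)
  obtain ⟨h, hh⟩ := ns_unbounded hb hi h0 κ hreg hmono hIκ hlt hsup
  have hg : ∀ i : I, ∃ g : (succ (lam κ i)).ord.ToType → ∀ j : Iio i, (κ j).ord.ToType,
      IsSuccLimit i → (∀ ξ η, ξ < η → ∀ᶠ j in atTop, g ξ j < g η j) ∧
          ∀ f : ∀ j : Iio i, (κ j).ord.ToType, ∃ ξ, ∀ᶠ j in atTop, f j < g ξ j := by
    intro i
    by_cases hl : IsSuccLimit i
    · obtain ⟨g, hg⟩ := hscale i hl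
      exact ⟨g, fun _ => hg⟩
    · have : ∀ j : Iio i, Nonempty (κ j).ord.ToType := by
        intro j
        rw [← mk_ne_zero_iff, mk_ord_toType]; exact (hreg j).ne_zero
      exact ⟨fun _ j => Classical.arbitrary _, fun h' => absurd h' hl⟩
  choose g hg using hg
  have hκne : ∀ j : I, Nonempty (κ j).ord.ToType := by
    intro j
    rw [← mk_ne_zero_iff, mk_ord_toType]; exact (hreg j).ne_zero
  have hH : ∀ (ξ : (succ L).ord.ToType) (j : I), ∃ b : (κ j).ord.ToType,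
      ∀ i (hji : j < i), g i (h ξ i) ⟨j, hji⟩ < b := by
    intro ξ j
    obtain ⟨b, hb'⟩ := bdd_of_isRegular (hreg j)
      (range fun i : Ioi j => g i (h ξ i) ⟨j, i.2⟩)
      (mk_range_le.trans_lt ((mk_set_le _).trans_lt (hIκ j)))
    exact ⟨b, fun i hji => hb' _ ⟨⟨i, hji⟩, rfl⟩⟩
  choose H hH using hH
  refine ⟨H, fun f => ?_⟩
  have hF : ∀ i : I, ∃ ζ : (succ (lam κ i)).ord.ToType, IsSuccLimit i →
      ∀ᶠ j in atTop, f (j : Iio i) < g i ζ j := by
    intro i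
    by_cases hl : IsSuccLimit i
    · obtain ⟨ζ, hζ⟩ := (hg i hl).2 fun j => f j
      exact ⟨ζ, fun _ => hζ⟩
    · exact ⟨h (Classical.choice (by
        rw [← mk_ne_zero_iff, mk_ord_toType]; exact (bot_lt_succ L).ne')) i,
        fun h' => absurd h' hl⟩
  choose F hF using hF
  obtain ⟨ξ, hξ⟩ := hh F
  refine ⟨ξ, ?_⟩
  -- the stationary set of limits
  have hT : IsStationary ({i | F i ≤ h ξ i} ∩ {i : I | IsSuccLimit i}) := by
    intro t ht
    have := hξ ((isClub_isSuccLimit hb h0).inter hcofI ht)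
    rwa [← inter_assoc] at this
  have hr : ∀ i, ∃ r : I, i ∈ {i | F i ≤ h ξ i} ∩ {i : I | IsSuccLimit i} → r < i ∧
      ∀ j (hji : j < i), r ≤ j → f j < g i (h ξ i) ⟨j, hji⟩ := by
    intro i
    by_cases hiT : i ∈ {i | F i ≤ h ξ i} ∩ {i : I | IsSuccLimit i}
    · have hl : IsSuccLimit i := hiT.2
      have h1 : ∀ᶠ j : Iio i in atTop, g i (F i) j ≤ g i (h ξ i) j := by
        rcases (show F i ≤ h ξ i from hiT.1).eq_or_lt with h2 | h2
        · rw [h2]; exact Eventually.of_forall fun j => le_rfl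
        · exact ((hg i hl).1 _ _ h2).mono fun j hj => hj.le
      have h2 := (hF i hl).and h1
      have : Nonempty (Iio i) := by
        obtain ⟨j, hj⟩ := not_isMin_iff.1 hl.1
        exact ⟨⟨j, hj⟩⟩
      obtain ⟨a, ha⟩ := eventually_atTop.1 h2
      refine ⟨a, fun _ => ⟨a.2, fun j hji haj => ?_⟩⟩
      have h3 := ha ⟨j, hji⟩ haj
      exact h3.1.trans_le h3.2
    · exact ⟨i, fun h' => absurd h' hiT⟩
  choose r hr using hr
  obtain ⟨a, ha⟩ := fodor hb hi h0 _ hT r fun i hi' => (hr i hi').1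
  refine eventually_atTop.2 ⟨a, fun j hj => ?_⟩
  obtain ⟨j', hj'⟩ := hnomax j
  obtain ⟨i, hiT, hi1, hi2⟩ := ha j'
  have hji : j < i := hj'.trans_le hi1
  exact ((hr i hiT).2 j hji (hi2 ▸ hj)).trans (hH ξ j i hji)

end

end Pool.Agent.Lib.MP_c014b8_lc
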